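import Pool.Agent.H18RD.Stm

/-!
# MP_cf50d6_gt: piece CONTR2 of project H18RD (helper53)

`cap v h v₀` is contractible if the graph of `v` is a finite tree.
-/

set_option autoImplicit false

namespace Pool.Agent.H18RD.CONTR2

open Function Pool.Agent.R655.LI

variable {V R : Type} {m : R → ℕ}

/-- the relators of `cap v h v₀` -/
def capRel (v : ∀ r, Fin (m r + 2) → V) (h : Cor m → ℤ) (v₀ : V) (r : Option R) : FreeGroup V :=
  r.elim (FreeGroup.of v₀) (wirt v h)

/-- the edges of the graph -/
def E (v : ∀ r, Fin (m r + 2) → V) (x y : V) : Prop := ∃ r, v r 0 = x ∧ v r (Fin.last _) = y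

theorem pi_one (v : ∀ r, Fin (m r + 2) → V) (hT : ∀ x y : V, Relation.EqvGen (E v) x y)
    (h : Cor m → ℤ) (v₀ : V) : ∀ x : PresentedGroup (Set.range (capRel v h v₀)), x = 1 := by
  have h0 : (PresentedGroup.of v₀ : PresentedGroup (Set.range (capRel v h v₀))) = 1 :=
    PresentedGroup.one_of_mem ⟨none, rfl⟩
  have hE : ∀ x y : V, Relation.EqvGen (E v) x y →
      ((PresentedGroup.of x : PresentedGroup (Set.range (capRel v h v₀))) = 1 ↔
        (PresentedGroup.of y : PresentedGroup (Set.range (capRel v h v₀))) = 1) := by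
    intro x y hxy
    induction hxy with
    | rel x y hr =>
      obtain ⟨r, rfl, rfl⟩ := hr
      have h1 : (PresentedGroup.mk (Set.range (capRel v h v₀))) (wirt v h r) = 1 :=
        PresentedGroup.one_of_mem ⟨some r, rfl⟩
      unfold wirt at h1
      rw [map_mul, map_mul, map_mul, map_inv, map_inv] at h1
      set W := (PresentedGroup.mk (Set.range (capRel v h v₀))) (conjWord v h r) with hW
      have h2 : (PresentedGroup.of (v r 0) : PresentedGroup (Set.range (capRel v h v₀))) =
          W * PresentedGroup.of (v r (Fin.last _)) * W⁻¹ := by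
        have h3 : (PresentedGroup.of (v r 0) : PresentedGroup (Set.range (capRel v h v₀))) * W *
            (PresentedGroup.of (v r (Fin.last _)))⁻¹ * W⁻¹ = 1 := h1
        rw [mul_inv_eq_one, mul_inv_eq_iff_eq_mul] at h3
        rw [eq_mul_inv_iff_mul_eq]
        exact h3
      rw [h2, conj_eq_one_iff]
    | refl x => exact Iff.rfl
    | symm x y _ ih => exact ih.symm
    | trans x y z _ _ ih1 ih2 => exact ih1.trans ih2
  have hid : (MonoidHom.id (PresentedGroup (Set.range (capRel v h v₀)))) = 1 := by
    refine PresentedGroup.ext fun x => ?_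
    exact (hE v₀ x (hT v₀ x)).1 h0
  intro x
  exact DFunLike.congr_fun hid x

theorem expSum_of' (x : V) : (expSum V (FreeGroup.of x)).toAdd = Finsupp.single x 1 := by
  unfold expSum
  rw [FreeGroup.lift_apply_of]
  rfl

theorem expSum_wirt (v : ∀ r, Fin (m r + 2) → V) (h : Cor m → ℤ) (r : R) :
    (expSum V (wirt v h r)).toAdd = Finsupp.single (v r 0) 1 - Finsupp.single (v r (Fin.last _)) 1 := by
  unfold wirt
  rw [MonoidHom.map_mul, MonoidHom.map_mul, MonoidHom.map_mul, MonoidHom.map_inv,
    MonoidHom.map_inv, toAdd_mul, toAdd_mul, toAdd_mul, toAdd_inv, toAdd_inv, expSum_of', expSum_of']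
  abel

theorem bdry_surj (v : ∀ r, Fin (m r + 2) → V) (hT : ∀ x y : V, Relation.EqvGen (E v) x y)
    (h : Cor m → ℤ) (v₀ : V) : Surjective (Finsupp.linearCombination ℤ
      fun r => (expSum V (capRel v h v₀ r)).toAdd) := by
  rw [← LinearMap.range_eq_top]
  set T := Finsupp.linearCombination ℤ fun r => (expSum V (capRel v h v₀ r)).toAdd with hTd
  have hm : ∀ r, (expSum V (capRel v h v₀ r)).toAdd ∈ LinearMap.range T := fun r =>
    ⟨Finsupp.single r 1, by rw [hTd, Finsupp.linearCombination_single, one_smul]⟩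
  have h0 : Finsupp.single v₀ (1 : ℤ) ∈ LinearMap.range T := by
    have := hm none
    rwa [show capRel v h v₀ none = FreeGroup.of v₀ from rfl, expSum_of'] at this
  have hE : ∀ x y : V, Relation.EqvGen (E v) x y →
      (Finsupp.single x (1 : ℤ) ∈ LinearMap.range T ↔ Finsupp.single y (1 : ℤ) ∈ LinearMap.range T) := by
    intro x y hxy
    induction hxy with
    | rel x y hr =>
      obtain ⟨r, rfl, rfl⟩ := hr
      have h1 := hm (some r)
      rw [show capRel v h v₀ (some r) = wirt v h r from rfl, expSum_wirt] at h1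
      constructor
      · intro h2
        have h3 := Submodule.sub_mem _ h2 h1
        rwa [sub_sub_cancel] at h3
      · intro h2
        have h3 := Submodule.add_mem _ h1 h2
        rwa [sub_add_cancel] at h3
    | refl x => exact Iff.rfl
    | symm x y _ ih => exact ih.symm
    | trans x y z _ _ ih1 ih2 => exact ih1.trans ih2
  rw [eq_top_iff]
  rintro c -
  rw [← Finsupp.sum_single c]
  refine Submodule.sum_mem _ fun x _ => ?_
  have e : Finsupp.single x (c x) = c x • Finsupp.single x (1 : ℤ) := by
    rw [Finsupp.smul_single, smul_eq_mul, mul_one]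
  rw [e]
  exact Submodule.smul_mem _ _ ((hE v₀ x (hT v₀ x)).1 h0)

theorem bdry_inj [Finite V] [Finite R] (v : ∀ r, Fin (m r + 2) → V)
    (hT : ∀ x y : V, Relation.EqvGen (E v) x y) (hc : Nat.card V = Nat.card R + 1)
    (h : Cor m → ℤ) (v₀ : V) : Injective (Finsupp.linearCombination ℤ
      fun r => (expSum V (capRel v h v₀ r)).toAdd) := by
  have hcard : Nat.card (Option R) = Nat.card V := by
    rw [hc, Finite.card_option]
  obtain ⟨e⟩ := Finite.card_eq.1 hcard
  set T := Finsupp.linearCombination ℤ fun r => (expSum V (capRel v h v₀ r)).toAdd with hTd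
  let L : (V →₀ ℤ) ≃ₗ[ℤ] (Option R →₀ ℤ) := Finsupp.domLCongr e.symm
  have hs : Surjective (L.toLinearMap ∘ₗ T) := by
    rw [LinearMap.coe_comp]
    exact L.surjective.comp (bdry_surj v hT h v₀)
  have hi := OrzechProperty.injective_of_surjective_endomorphism (L.toLinearMap ∘ₗ T) hs
  rw [LinearMap.coe_comp] at hi
  exact hi.of_comp

theorem t_CONTR2 : S_CONTR2 := fun V R _ _ m v hT h v₀ =>
  ⟨pi_one v hT.1 h v₀, bdry_inj v hT.1 hT.2 h v₀⟩

end Pool.Agent.H18RD.CONTR2
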