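import Pool.Agent.H18RD.Stm
import Pool.Agent.H18LI.COV

/-!
# The infinite cyclic covering of a Wirtinger presentation
-/

set_option autoImplicit false

namespace Pool.Agent.H18RD.COV2

open Function Pool.Agent.R655.LI Pool.Agent.H18RD

section aux

variable {B : Type} [Group B]

omit [Group B] in
theorem const_of_succ (D : ℤ → B) (hD : ∀ l, D (l + 1) = D l) (k l : ℤ) : D l = D k := by
  have h0 : ∀ l : ℤ, D l = D 0 := by
    intro l
    induction l using Int.induction_on with
    | zero => rfl
    | succ l ih => rw [hD, ih]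
    | pred l ih => rw [← ih, ← hD (-l - 1), sub_add_cancel]
  rw [h0 l, h0 k]

/-- two solutions of the recursion `F (l + 1) = F l * a l` that agree at one place are equal -/
theorem rec_unique (F G a : ℤ → B) (hF : ∀ l, F (l + 1) = F l * a l)
    (hG : ∀ l, G (l + 1) = G l * a l) (k : ℤ) (h0 : F k = G k) (l : ℤ) : F l = G l := by
  have h1 := const_of_succ (fun l => F l * (G l)⁻¹) (fun l => by
    show F (l + 1) * (G (l + 1))⁻¹ = F l * (G l)⁻¹
    rw [hF, hG]
    group) k l
  have h2 : F l * (G l)⁻¹ = F k * (G k)⁻¹ := h1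
  rw [h0, mul_inv_cancel] at h2
  exact mul_inv_eq_one.1 h2

theorem ofFn_tele (N : ℕ) (a b : Fin N → B) (T : Fin (N + 1) → B)
    (h : ∀ s, T s.castSucc * a s = b s * T s.succ) :
    T 0 * (List.ofFn a).prod = (List.ofFn b).prod * T (Fin.last N) := by
  induction N with
  | zero => simp
  | succ N ih =>
    rw [List.ofFn_succ, List.ofFn_succ, List.prod_cons, List.prod_cons, ← mul_assoc]
    have h0 : T 0 * a 0 = b 0 * T (Fin.succ 0) := h 0
    have h1 := ih (fun i => a i.succ) (fun i => b i.succ) (fun i => T i.succ) (fun s => h s.succ)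
    rw [h0, mul_assoc, h1, ← mul_assoc]
    rfl

end aux

section free

variable {V R : Type} {m : R → ℕ} (v : ∀ r, Fin (m r + 2) → V) (h : Cor m → ℤ)

theorem seg_self (x : V) (k : ℤ) : seg x k k = 1 := inv_mul_cancel _

theorem seg_succ (x : V) (k l : ℤ) : seg x k (l + 1) = seg x k l * FreeGroup.of (x, l) := by
  rw [seg, pot_succ, ← mul_assoc]
  rfl

/-- the translation of the free group -/
def sh (n : ℤ) : FreeGroup (V × ℤ) →* FreeGroup (V × ℤ) :=
  FreeGroup.lift fun x => FreeGroup.of (x.1, x.2 + n)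

theorem sh_of (n : ℤ) (x : V × ℤ) : sh n (FreeGroup.of x) = FreeGroup.of (x.1, x.2 + n) :=
  FreeGroup.lift_apply_of

theorem sh_seg (n : ℤ) (x : V) (k l : ℤ) : sh n (seg x k l) = seg x (k + n) (l + n) := by
  refine rec_unique (fun l => sh n (seg x k l)) (fun l => seg x (k + n) (l + n))
    (fun l => FreeGroup.of (x, l + n)) ?_ ?_ k ?_ l
  · intro l
    show sh n (seg x k (l + 1)) = sh n (seg x k l) * _
    rw [seg_succ, map_mul, sh_of]
  · intro l
    show seg x (k + n) (l + 1 + n) = seg x (k + n) (l + n) * _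
    rw [add_right_comm, seg_succ]
  · show sh n (seg x k k) = seg x (k + n) (k + n)
    rw [seg_self, seg_self, map_one]

theorem sh_liftW (n a : ℤ) (r : R) : sh n (liftW v h r a) = liftW v h r (a + n) := by
  rw [liftW, liftW, map_list_prod, List.map_ofFn]
  congr 2
  funext s
  rw [Function.comp_apply, sh_seg, add_assoc, add_assoc]

theorem sh_shiftRel (n a : ℤ) (r : R) : sh n (shiftRel v h r a) = shiftRel v h r (a + n) := by
  rw [shiftRel, shiftRel, map_mul, map_mul, map_mul, map_inv, map_inv, sh_of, sh_of, sh_liftW,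
    sh_liftW, add_right_comm a 1 n]
  simp only [add_assoc]

end free

section cover

variable {V R : Type} {m : R → ℕ} (v : ∀ r, Fin (m r + 2) → V) (h : Cor m → ℤ) (S : Set R)

/-- the group of the infinite cyclic covering -/
abbrev NS : Type := PresentedGroup (Set.range fun i : S × ℤ => shiftRel v h i.1 i.2)

/-- the group of the complex -/
abbrev GS : Type := PresentedGroup (Set.range fun r : S => wirt v h r)

/-- the projection of the free group -/
abbrev pr : FreeGroup (V × ℤ) →* NS v h S := PresentedGroup.mk _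

theorem shift_rel (n : ℤ) (i : S × ℤ) :
    FreeGroup.lift (fun x : V × ℤ => (PresentedGroup.of (x.1, x.2 + n) : NS v h S))
      (shiftRel v h i.1 i.2) = 1 := by
  have h1 : (PresentedGroup.mk _ (shiftRel v h i.1 (i.2 + n)) : NS v h S) = 1 :=
    PresentedGroup.one_of_mem ⟨(i.1, i.2 + n), rfl⟩
  have h2 : FreeGroup.lift (fun x : V × ℤ => (PresentedGroup.of (x.1, x.2 + n) : NS v h S)) =
      (pr v h S).comp (sh n) := by
    ext x
    rw [FreeGroup.lift_apply_of, MonoidHom.comp_apply, sh_of]
    rfl
  rw [h2, MonoidHom.comp_apply, sh_shiftRel]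
  exact h1

/-- the translation -/
def shiftHom (n : ℤ) : NS v h S →* NS v h S :=
  PresentedGroup.toGroup (f := fun x : V × ℤ => (PresentedGroup.of (x.1, x.2 + n) : NS v h S)) (by
    rintro _ ⟨i, rfl⟩
    exact shift_rel v h S n i)

theorem shiftHom_of (n : ℤ) (x : V × ℤ) :
    shiftHom v h S n (PresentedGroup.of x) = PresentedGroup.of (x.1, x.2 + n) :=
  PresentedGroup.toGroup.of _

theorem shiftHom_comp (n k : ℤ) :
    (shiftHom v h S n).comp (shiftHom v h S k) = shiftHom v h S (k + n) := by
  refine PresentedGroup.ext fun x => ?_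
  rw [MonoidHom.comp_apply, shiftHom_of, shiftHom_of, shiftHom_of, add_assoc]

theorem shiftHom_zero : shiftHom v h S 0 = MonoidHom.id _ := by
  refine PresentedGroup.ext fun x => ?_
  rw [shiftHom_of, add_zero]
  rfl

/-- the translation as an automorphism -/
def shiftAut : MulAut (NS v h S) where
  toFun := shiftHom v h S 1
  invFun := shiftHom v h S (-1)
  left_inv x := by
    have := DFunLike.congr_fun (shiftHom_comp v h S (-1) 1) x
    rw [MonoidHom.comp_apply, add_neg_cancel, shiftHom_zero] at this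
    exact this
  right_inv x := by
    have := DFunLike.congr_fun (shiftHom_comp v h S 1 (-1)) x
    rw [MonoidHom.comp_apply, neg_add_cancel, shiftHom_zero] at this
    exact this
  map_mul' := map_mul _

theorem shiftAut_zpow (n : ℤ) (x : NS v h S) :
    ((shiftAut v h S) ^ n) x = shiftHom v h S n x := by
  induction n using Int.induction_on generalizing x with
  | zero => rw [zpow_zero, shiftHom_zero]; rfl
  | succ n ih =>
    rw [zpow_add_one, MulAut.mul_apply, ih]
    exact DFunLike.congr_fun ((shiftHom_comp v h S n 1).trans (by rw [add_comm])) x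
  | pred n ih =>
    rw [zpow_sub_one, MulAut.mul_apply, ih]
    exact DFunLike.congr_fun ((shiftHom_comp v h S (-n) (-1)).trans
      (by rw [add_comm, sub_eq_add_neg])) x

/-- the action of `ℤ` -/
def act : Multiplicative ℤ →* MulAut (NS v h S) := zpowersHom _ (shiftAut v h S)

theorem act_of (n : ℤ) (x : V × ℤ) :
    act v h S (Multiplicative.ofAdd n) (PresentedGroup.of x) = PresentedGroup.of (x.1, x.2 + n) := by
  rw [act, zpowersHom_apply]
  show ((shiftAut v h S) ^ n) _ = _
  rw [shiftAut_zpow, shiftHom_of]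

/-- the translation by `k` in the semidirect product -/
def T (k : ℤ) : NS v h S ⋊[act v h S] Multiplicative ℤ :=
  SemidirectProduct.inr (Multiplicative.ofAdd k)

/-- the images of the generators -/
def toSD (x : V) : NS v h S ⋊[act v h S] Multiplicative ℤ :=
  SemidirectProduct.inl (PresentedGroup.of (x, 0)) * T v h S 1

/-- the inclusion of the free group of the covering -/
def il : FreeGroup (V × ℤ) →* NS v h S ⋊[act v h S] Multiplicative ℤ :=
  (SemidirectProduct.inl : NS v h S →* NS v h S ⋊[act v h S] Multiplicative ℤ).comp (pr v h S)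

theorem T_add (k l : ℤ) : T v h S (k + l) = T v h S k * T v h S l := by
  rw [T, T, T, ← map_mul]
  rfl

theorem T_mul_toSD (k : ℤ) (x : V) :
    T v h S k * toSD v h S x = il v h S (FreeGroup.of (x, k)) * T v h S (k + 1) := by
  have h1 : (SemidirectProduct.inl (act v h S (Multiplicative.ofAdd k)
      (PresentedGroup.of (x, 0))) : NS v h S ⋊[act v h S] Multiplicative ℤ) =
      SemidirectProduct.inr (Multiplicative.ofAdd k) *
        SemidirectProduct.inl (PresentedGroup.of (x, 0)) *
        SemidirectProduct.inr (Multiplicative.ofAdd k)⁻¹ := SemidirectProduct.inl_aut _ _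
  rw [act_of, map_inv, zero_add] at h1
  have h2 : il v h S (FreeGroup.of (x, k)) =
      SemidirectProduct.inl (PresentedGroup.of (x, k)) := rfl
  rw [h2, h1, T_add, toSD, T]
  group

theorem T_mul_zpow (x : V) (k l : ℤ) :
    T v h S k * toSD v h S x ^ (l - k) = il v h S (seg x k l) * T v h S l := by
  refine rec_unique (fun l => T v h S k * toSD v h S x ^ (l - k))
    (fun l => il v h S (seg x k l) * T v h S l) (fun _ => toSD v h S x) ?_ ?_ k ?_ l
  · intro l
    show T v h S k * toSD v h S x ^ (l + 1 - k) = T v h S k * toSD v h S x ^ (l - k) * toSD v h S x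
    rw [add_sub_right_comm, zpow_add_one, mul_assoc]
  · intro l
    show il v h S (seg x k (l + 1)) * T v h S (l + 1) =
      il v h S (seg x k l) * T v h S l * toSD v h S x
    rw [seg_succ, map_mul, mul_assoc, ← T_mul_toSD, mul_assoc]
  · show T v h S k * toSD v h S x ^ (k - k) = il v h S (seg x k k) * T v h S k
    rw [seg_self, sub_self, zpow_zero, map_one, mul_one, one_mul]

theorem T_mul_conjWord (r : R) (n : ℤ) :
    T v h S (h ⟨r, 0⟩ + n) * FreeGroup.lift (toSD v h S) (conjWord v h r) =
      il v h S (liftW v h r n) * T v h S (h ⟨r, Fin.last _⟩ + n) := by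
  rw [conjWord, liftW, map_list_prod, map_list_prod, List.map_ofFn, List.map_ofFn]
  refine ofFn_tele (m r) _ _ (fun s => T v h S (h ⟨r, s⟩ + n)) fun s => ?_
  show T v h S (h ⟨r, s.castSucc⟩ + n) * FreeGroup.lift (toSD v h S)
      (FreeGroup.of (v r s.castSucc.succ) ^ (h ⟨r, s.succ⟩ - h ⟨r, s.castSucc⟩)) =
    il v h S (seg (v r s.castSucc.succ) (h ⟨r, s.castSucc⟩ + n) (h ⟨r, s.succ⟩ + n)) *
      T v h S (h ⟨r, s.succ⟩ + n)
  rw [map_zpow, FreeGroup.lift_apply_of, ← T_mul_zpow, add_sub_add_right_eq_sub]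

theorem toSD_rel (r : S) : FreeGroup.lift (toSD v h S) (wirt v h r) = 1 := by
  have h1 : (PresentedGroup.mk _ (shiftRel v h r 0) : NS v h S) = 1 :=
    PresentedGroup.one_of_mem ⟨(r, 0), rfl⟩
  have h2 : il v h S (shiftRel v h r 0) = 1 := by
    rw [il, MonoidHom.comp_apply]
    show SemidirectProduct.inl (PresentedGroup.mk _ (shiftRel v h r 0) : NS v h S) = _
    rw [h1, map_one]
  have e0 := T_mul_toSD v h S (h ⟨r, 0⟩) (v r 0)
  have e1 := T_mul_conjWord v h S r 1
  have e2 := T_mul_toSD v h S (h ⟨r, Fin.last _⟩) (v r (Fin.last _))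
  have e3 := T_mul_conjWord v h S r 0
  rw [shiftRel, map_mul, map_mul, map_mul, map_inv, map_inv] at h2
  simp only [add_zero, zero_add] at h2 e3
  rw [wirt, map_mul, map_mul, map_mul, map_inv, map_inv, FreeGroup.lift_apply_of,
    FreeGroup.lift_apply_of]
  set W := FreeGroup.lift (toSD v h S) (conjWord v h r)
  set t0 := T v h S (h ⟨r, 0⟩)
  set t1 := T v h S (h ⟨r, 0⟩ + 1)
  set u0 := T v h S (h ⟨r, Fin.last _⟩)
  set u1 := T v h S (h ⟨r, Fin.last _⟩ + 1)
  have f0 : toSD v h S (v r 0) = t0⁻¹ * (il v h S (FreeGroup.of (v r 0, h ⟨r, 0⟩)) * t1) := by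
    rw [← e0, inv_mul_cancel_left]
  have f1 : W = t1⁻¹ * (il v h S (liftW v h r 1) * u1) := by
    rw [← e1, inv_mul_cancel_left]
  have f2 : toSD v h S (v r (Fin.last _)) =
      u0⁻¹ * (il v h S (FreeGroup.of (v r (Fin.last _), h ⟨r, Fin.last _⟩)) * u1) := by
    rw [← e2, inv_mul_cancel_left]
  have f3 : W = t0⁻¹ * (il v h S (liftW v h r 0) * u0) := by
    rw [← e3, inv_mul_cancel_left]
  calc toSD v h S (v r 0) * W * (toSD v h S (v r (Fin.last _)))⁻¹ * W⁻¹
      = (t0⁻¹ * (il v h S (FreeGroup.of (v r 0, h ⟨r, 0⟩)) * t1)) *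
        (t1⁻¹ * (il v h S (liftW v h r 1) * u1)) *
        (u0⁻¹ * (il v h S (FreeGroup.of (v r (Fin.last _), h ⟨r, Fin.last _⟩)) * u1))⁻¹ *
        (t0⁻¹ * (il v h S (liftW v h r 0) * u0))⁻¹ := by rw [← f0, ← f1, ← f2, ← f3]
    _ = t0⁻¹ * (il v h S (FreeGroup.of (v r 0, h ⟨r, 0⟩)) * il v h S (liftW v h r 1) *
        (il v h S (FreeGroup.of (v r (Fin.last _), h ⟨r, Fin.last _⟩)))⁻¹ *
        (il v h S (liftW v h r 0))⁻¹) * t0 := by group
    _ = 1 := by rw [h2, mul_one, inv_mul_cancel]

/-- the embedding into the semidirect product -/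
def emb : GS v h S →* NS v h S ⋊[act v h S] Multiplicative ℤ :=
  PresentedGroup.toGroup (f := toSD v h S) (by
    rintro _ ⟨r, rfl⟩
    exact toSD_rel v h S r)

/-- the projection to the levels -/
abbrev dn : FreeGroup (V × ℤ) →* GS v h S :=
  FreeGroup.lift fun x : V × ℤ => (PresentedGroup.of x.1 : GS v h S)

theorem dn_seg (x : V) (k l : ℤ) :
    dn v h S (seg x k l) = (PresentedGroup.of x : GS v h S) ^ (l - k) := by
  refine rec_unique (fun l => dn v h S (seg x k l))
    (fun l => (PresentedGroup.of x : GS v h S) ^ (l - k)) (fun _ => PresentedGroup.of x) ?_ ?_ k ?_ l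
  · intro l
    show dn v h S (seg x k (l + 1)) = dn v h S (seg x k l) * PresentedGroup.of x
    rw [seg_succ, map_mul, FreeGroup.lift_apply_of]
  · intro l
    show (PresentedGroup.of x : GS v h S) ^ (l + 1 - k) = PresentedGroup.of x ^ (l - k) *
      PresentedGroup.of x
    rw [add_sub_right_comm, zpow_add_one]
  · show dn v h S (seg x k k) = (PresentedGroup.of x : GS v h S) ^ (k - k)
    rw [seg_self, sub_self, zpow_zero, map_one]

theorem dn_liftW (r : R) (n : ℤ) :
    dn v h S (liftW v h r n) = (PresentedGroup.mk _ (conjWord v h r) : GS v h S) := by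
  rw [conjWord, liftW, map_list_prod, map_list_prod, List.map_ofFn, List.map_ofFn]
  congr 2
  funext s
  rw [Function.comp_apply, Function.comp_apply, dn_seg, map_zpow, add_sub_add_right_eq_sub]
  rfl

theorem back_rel (i : S × ℤ) : dn v h S (shiftRel v h i.1 i.2) = 1 := by
  have h1 : (PresentedGroup.mk _ (wirt v h i.1) : GS v h S) = 1 :=
    PresentedGroup.one_of_mem ⟨i.1, rfl⟩
  rw [← h1, shiftRel, wirt, map_mul, map_mul, map_mul, map_mul, map_mul, map_mul, map_inv, map_inv,
    map_inv, map_inv, dn_liftW, dn_liftW, FreeGroup.lift_apply_of, FreeGroup.lift_apply_of]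
  rfl

/-- the homomorphism of the covering group -/
def backN : NS v h S →* GS v h S :=
  PresentedGroup.toGroup (f := fun x : V × ℤ => (PresentedGroup.of x.1 : GS v h S)) (by
    rintro _ ⟨i, rfl⟩
    exact back_rel v h S i)

theorem backN_of (x : V × ℤ) : backN v h S (PresentedGroup.of x) = PresentedGroup.of x.1 :=
  PresentedGroup.toGroup.of _

/-- the left inverse of the embedding -/
def back : NS v h S ⋊[act v h S] Multiplicative ℤ →* GS v h S :=
  SemidirectProduct.lift (backN v h S) 1 (by
    intro g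
    refine PresentedGroup.ext fun x => ?_
    have key : ∀ n : ℤ, backN v h S (act v h S (Multiplicative.ofAdd n) (PresentedGroup.of x)) =
        (1 : GS v h S) * backN v h S (PresentedGroup.of x) * (1 : GS v h S)⁻¹ := by
      intro n
      rw [act_of, backN_of, backN_of, one_mul, inv_one, mul_one]
    exact key (Multiplicative.toAdd g))

theorem back_emb (x : GS v h S) : back v h S (emb v h S x) = x := by
  have h1 : (back v h S).comp (emb v h S) = MonoidHom.id _ := by
    refine PresentedGroup.ext fun x => ?_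
    have h2 : emb v h S (PresentedGroup.of x) = toSD v h S x := PresentedGroup.toGroup.of _
    rw [MonoidHom.comp_apply, h2, toSD, map_mul, T, back, SemidirectProduct.lift_inl,
      SemidirectProduct.lift_inr, backN_of]
    show _ * 1 = _
    rw [mul_one]
    rfl
  exact DFunLike.congr_fun h1 x

end cover

theorem t_COV2 : S_COV2 := by
  intro V R m v h S hN
  exact Pool.Agent.H18LI.locInd_of_injective
    (Pool.Agent.H18LI.locInd_semidirect (act v h S) hN) (emb v h S)
    (LeftInverse.injective (back_emb v h S))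

end Pool.Agent.H18RD.COV2
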