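import Pool.Agent.H18RD.Stm

/-!
# Piece CYC (every closed walk has positive weight) of project H18RD
-/

set_option autoImplicit false
set_option linter.unusedSectionVars false

namespace Pool.Agent.H18RD

open Function Pool.Agent.R655.LI
open scoped Classical

namespace CYC

variable {P R M : Type} [Fintype R] [AddCommGroup M] [Module ℚ M] (row : P → R) (vec : P → M)
  (h : P → ℤ) (q : R → P) (f : R → M →ₗ[ℚ] ℚ)

/-- one step of a walk -/
def Step (a b : R) (c : ℤ) : Prop :=
  (∃ p, row p = b ∧ f a (vec p) ≠ 0 ∧ p ≠ q b ∧ c = h p - h (q a)) ∨ (b = a ∧ 0 < c)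

/-- there is a walk of length `n` from `a` to `b` of total weight `w` -/
def W : ℕ → R → R → ℤ → Prop
  | 0, a, b, w => b = a ∧ w = 0
  | n + 1, a, b, w => ∃ m c w', W n a m w' ∧ Step row vec h q f m b c ∧ w = w' + c

variable {row vec h q f}

theorem W_append {n : ℕ} {a b : R} {w : ℤ} (h1 : W row vec h q f n a b w) {n' : ℕ} :
    ∀ {b' : R} {w' : ℤ}, W row vec h q f n' b b' w' →
      W row vec h q f (n + n') a b' (w + w') := by
  induction n' with
  | zero =>
    intro b' w' h2
    obtain ⟨rfl, rfl⟩ := h2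
    rw [add_zero w]
    exact h1
  | succ n' ih =>
    intro b' w' h2
    obtain ⟨m, c, w'', h3, h4, rfl⟩ := h2
    exact ⟨m, c, w + w'', ih h3, h4, by ring⟩

theorem W_one {a b : R} {c : ℤ} (h1 : Step row vec h q f a b c) : W row vec h q f 1 a b c :=
  ⟨a, c, 0, ⟨rfl, rfl⟩, h1, by ring⟩

theorem fun_of_W (n : ℕ) : ∀ (a b : R) (w : ℤ), W row vec h q f n a b w →
    ∃ (x : ℕ → R) (c : ℕ → ℤ), x 0 = a ∧ x n = b ∧
      (∀ t < n, Step row vec h q f (x t) (x (t + 1)) (c t)) ∧ w = ∑ t ∈ Finset.range n, c t := by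
  induction n with
  | zero =>
    intro a b w h1
    obtain ⟨rfl, rfl⟩ := h1
    exact ⟨fun _ => b, fun _ => 0, rfl, rfl, fun t ht => absurd ht (Nat.not_lt_zero _), by simp⟩
  | succ n ih =>
    intro a b w h1
    obtain ⟨m, c, w', h2, h3, rfl⟩ := h1
    obtain ⟨x, d, h4, h5, h6, rfl⟩ := ih a m w' h2
    refine ⟨fun t => if t ≤ n then x t else b, fun t => if t < n then d t else c, ?_, ?_, ?_, ?_⟩
    · simpa using h4
    · simp
    · intro t ht
      by_cases h7 : t < n
      · have h8 := h6 t h7
        simp only [if_pos h7, if_pos h7.le, if_pos (Nat.succ_le_of_lt h7)]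
        exact h8
      · have h8 : t = n := by omega
        subst h8
        have h9 : ¬ (t + 1 ≤ t) := by omega
        simp only [if_neg h7, if_neg h9, if_pos le_rfl, h5]
        exact h3
    · rw [Finset.sum_range_succ]
      simp only [lt_irrefl, if_false]
      congr 1
      refine Finset.sum_congr rfl fun t ht => ?_
      rw [if_pos (Finset.mem_range.mp ht)]

theorem W_of_fun {k : ℕ} {x : ℕ → R} {c : ℕ → ℤ}
    (hst : ∀ t < k, Step row vec h q f (x t) (x (t + 1)) (c t)) (i n : ℕ) (hn : i + n ≤ k) :
    W row vec h q f n (x i) (x (i + n))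
      (∑ t ∈ Finset.range (i + n), c t - ∑ t ∈ Finset.range i, c t) := by
  induction n with
  | zero => exact ⟨rfl, by simp⟩
  | succ n ih =>
    refine ⟨x (i + n), c (i + n), _, ih (by omega), hst (i + n) (by omega), ?_⟩
    have h1 : i + (n + 1) = i + n + 1 := rfl
    rw [h1, Finset.sum_range_succ]
    ring

/-- the closed walks without repetition -/
theorem simple (hq : ∀ r, row (q r) = r) (hf1 : ∀ i, f i (vec (q i)) = 1)
    (hf0 : ∀ i j, i ≠ j → f i (vec (q j)) = 0)
    (hmin : ∀ q' : R → P, (∀ r, row (q' r) = r) → LinearIndependent ℚ (fun r => vec (q' r)) →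
      q' ≠ q → ∑ r, h (q r) < ∑ r, h (q' r)) (k : ℕ) (hk : 0 < k) (x : ℕ → R) (p : ℕ → P)
    (hcl : x k = x 0)
    (hst : ∀ t < k, row (p t) = x (t + 1) ∧ f (x t) (vec (p t)) ≠ 0 ∧ p t ≠ q (x (t + 1)))
    (hd : ∀ i j, i < j → j < k → x i ≠ x j) (z : ℕ → ℤ)
    (hz : ∀ s t, s < k → t < k → s ≠ t → f (x s) (vec (p t)) ≠ 0 → z t < z s) :
    0 < ∑ t ∈ Finset.range k, (h (p t) - h (q (x t))) := by
  have hd1' : ∀ i j, i < j → j < k → x (i + 1) ≠ x (j + 1) := by
    intro i j hi hj he
    by_cases h1 : j + 1 < k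
    · exact hd (i + 1) (j + 1) (by omega) h1 he
    · have h2 : j + 1 = k := by omega
      rw [h2, hcl] at he
      exact hd 0 (i + 1) (by omega) (by omega) he.symm
  have hd1 : ∀ i j, i < k → j < k → x (i + 1) = x (j + 1) → i = j := by
    intro i j hi hj he
    rcases lt_trichotomy i j with h1 | h1 | h1
    · exact (hd1' i j h1 hj he).elim
    · exact h1
    · exact (hd1' j i h1 hi he.symm).elim
  let q' : R → P := fun r => if hx : ∃ t, t < k ∧ x (t + 1) = r then p hx.choose else q r
  have q1 : ∀ t, t < k → q' (x (t + 1)) = p t := by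
    intro t ht
    have hx : ∃ t', t' < k ∧ x (t' + 1) = x (t + 1) := ⟨t, ht, rfl⟩
    have h1 := hd1 _ _ hx.choose_spec.1 ht hx.choose_spec.2
    change (if hx : ∃ t', t' < k ∧ x (t' + 1) = x (t + 1) then p hx.choose else
      q (x (t + 1))) = _
    rw [dif_pos hx, h1]
  have q2 : ∀ r, (¬ ∃ t, t < k ∧ x (t + 1) = r) → q' r = q r := by
    intro r hr
    exact dif_neg hr
  have hrow : ∀ r, row (q' r) = r := by
    intro r
    by_cases hr : ∃ t, t < k ∧ x (t + 1) = r
    · obtain ⟨t, ht, rfl⟩ := hr
      rw [q1 t ht, (hst t ht).1]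
    · rw [q2 r hr, hq]
  have hhit : ∀ t, t < k → ∃ t', t' < k ∧ x (t' + 1) = x t := by
    intro t ht
    rcases Nat.eq_zero_or_pos t with h0 | h0
    · refine ⟨k - 1, by omega, ?_⟩
      have h1 : k - 1 + 1 = k := by omega
      rw [h1, hcl, h0]
    · refine ⟨t - 1, by omega, ?_⟩
      have h1 : t - 1 + 1 = t := by omega
      rw [h1]
  have hind : LinearIndependent ℚ (fun r => vec (q' r)) := by
    rw [Fintype.linearIndependent_iff]
    intro a ha
    have key : ∀ i, ∑ r, a r * f i (vec (q' r)) = 0 := by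
      intro i
      have h1 := congrArg (f i) ha
      rw [map_sum, map_zero] at h1
      simpa [smul_eq_mul] using h1
    have hA : ∀ t, t < k → a (x (t + 1)) = 0 := by
      by_contra hcon
      push Not at hcon
      obtain ⟨t0, ht0, hat0⟩ := hcon
      obtain ⟨s, hs, hsm⟩ := Finset.exists_min_image
        ((Finset.range k).filter fun t => a (x (t + 1)) ≠ 0) z
        ⟨t0, Finset.mem_filter.mpr ⟨Finset.mem_range.mpr ht0, hat0⟩⟩
      rw [Finset.mem_filter, Finset.mem_range] at hs
      have h1 := key (x s)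
      rw [Finset.sum_eq_single (x (s + 1))] at h1
      · rw [q1 s hs.1] at h1
        rcases mul_eq_zero.mp h1 with h2 | h2
        · exact hs.2 h2
        · exact (hst s hs.1).2.1 h2
      · intro r _ hr
        by_cases hr' : ∃ t, t < k ∧ x (t + 1) = r
        · obtain ⟨t, ht, rfl⟩ := hr'
          have hts : s ≠ t := by
            rintro rfl
            exact hr rfl
          rw [q1 t ht]
          by_cases h2 : a (x (t + 1)) = 0
          · rw [h2, zero_mul]
          · have h3 := hsm t (Finset.mem_filter.mpr ⟨Finset.mem_range.mpr ht, h2⟩)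
            have h4 : f (x s) (vec (p t)) = 0 := by
              by_contra h5
              exact absurd (hz s t hs.1 ht hts h5) (not_lt.mpr h3)
            rw [h4, mul_zero]
        · rw [q2 r hr', hf0, mul_zero]
          rintro rfl
          exact hr' (hhit s hs.1)
      · intro h2
        exact absurd (Finset.mem_univ _) h2
    intro r
    by_cases hr : ∃ t, t < k ∧ x (t + 1) = r
    · obtain ⟨t, ht, rfl⟩ := hr
      exact hA t ht
    · have h1 := key r
      rw [Finset.sum_eq_single r] at h1
      · rw [q2 r hr, hf1, mul_one] at h1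
        exact h1
      · intro r' _ hr'
        by_cases hr'' : ∃ t, t < k ∧ x (t + 1) = r'
        · obtain ⟨t, ht, rfl⟩ := hr''
          rw [hA t ht, zero_mul]
        · rw [q2 r' hr'', hf0 r r' (Ne.symm hr'), mul_zero]
      · intro h2
        exact absurd (Finset.mem_univ _) h2
  have hne : q' ≠ q := by
    intro he
    have h1 := q1 0 (by omega)
    rw [he] at h1
    exact (hst 0 (by omega)).2.2 h1.symm
  have h1 := hmin q' hrow hind hne
  have h2 : ∑ r, (h (q' r) - h (q r)) =
      ∑ t ∈ Finset.range k, (h (p t) - h (q (x (t + 1)))) := by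
    have h3 : ∑ r, (h (q' r) - h (q r)) =
        ∑ r ∈ (Finset.range k).image (fun t => x (t + 1)), (h (q' r) - h (q r)) := by
      symm
      refine Finset.sum_subset (Finset.subset_univ _) fun r _ hr => ?_
      rw [q2 r, sub_self]
      rintro ⟨t, ht, htr⟩
      exact hr (Finset.mem_image.mpr ⟨t, Finset.mem_range.mpr ht, htr⟩)
    rw [h3, Finset.sum_image]
    · refine Finset.sum_congr rfl fun t ht => ?_
      rw [q1 t (Finset.mem_range.mp ht)]
    · intro i hi j hj he
      exact hd1 i j (by simpa using hi) (by simpa using hj) he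
  have h4 : ∑ t ∈ Finset.range k, (h (q (x (t + 1))) - h (q (x t))) = 0 := by
    rw [Finset.sum_range_sub (fun t => h (q (x t))) k, hcl, sub_self]
  have h5 : ∑ t ∈ Finset.range k, (h (p t) - h (q (x t))) =
      ∑ t ∈ Finset.range k, (h (p t) - h (q (x (t + 1)))) +
      ∑ t ∈ Finset.range k, (h (q (x (t + 1))) - h (q (x t))) := by
    rw [← Finset.sum_add_distrib]
    refine Finset.sum_congr rfl fun t _ => ?_
    ring
  rw [h5, h4, add_zero, ← h2, Finset.sum_sub_distrib]
  linarith

/-- all closed walks -/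
theorem claim (hq : ∀ r, row (q r) = r) (hf1 : ∀ i, f i (vec (q i)) = 1)
    (hf0 : ∀ i j, i ≠ j → f i (vec (q j)) = 0)
    (hmin : ∀ q' : R → P, (∀ r, row (q' r) = r) → LinearIndependent ℚ (fun r => vec (q' r)) →
      q' ≠ q → ∑ r, h (q r) < ∑ r, h (q' r)) (k : ℕ) : 0 < k → ∀ (a : R) (w : ℤ),
    W row vec h q f k a a w → 0 < w := by
  induction k using Nat.strong_induction_on with
  | _ k ih =>
    intro hk a w hW
    obtain ⟨x, c, hx0, hxk, hst, rfl⟩ := fun_of_W k a a w hW
    have hcl : x k = x 0 := hxk.trans hx0.symm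
    clear hx0 hxk
    let S : ℕ → ℤ := fun n => ∑ t ∈ Finset.range n, c t
    have hS : ∀ n, ∑ t ∈ Finset.range n, c t = S n := fun _ => rfl
    have S1 : ∀ n, S (n + 1) = S n + c n := fun n => Finset.sum_range_succ _ _
    have S0 : S 0 = 0 := Finset.sum_range_zero _
    have hW2 : ∀ i j, i ≤ j → j ≤ k → W row vec h q f (j - i) (x i) (x j) (S j - S i) := by
      intro i j hij hj
      obtain ⟨n, rfl⟩ := Nat.exists_eq_add_of_le hij
      rw [Nat.add_sub_cancel_left]
      exact W_of_fun hst i n hj
    by_cases hd : ∃ i j, i < j ∧ j < k ∧ x i = x j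
    · obtain ⟨i, j, hij, hjk, he⟩ := hd
      have h1 := hW2 i j hij.le hjk.le
      rw [← he] at h1
      have h2 := ih (j - i) (by omega) (by omega) _ _ h1
      have h3 := hW2 0 i (Nat.zero_le _) (by omega)
      rw [he] at h3
      have h4 := W_append h3 (hW2 j k hjk.le le_rfl)
      rw [hcl] at h4
      have h5 := ih (i - 0 + (k - j)) (by omega) (by omega) _ _ h4
      rw [S0] at h5
      change 0 < S k
      linarith
    · push Not at hd
      by_cases htr : ∃ t, t < k ∧ x (t + 1) = x t ∧ 0 < c t
      · obtain ⟨t, ht, h1, h2⟩ := htr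
        have h3 : k = 1 := by
          by_contra h4
          by_cases h5 : t + 1 < k
          · exact hd t (t + 1) (by omega) h5 h1.symm
          · have h6 : t + 1 = k := by omega
            rw [h6, hcl] at h1
            exact hd 0 t (by omega) ht h1
        subst h3
        have h4 : t = 0 := by omega
        subst h4
        simpa using h2
      · have hst' : ∀ t, t < k → ∃ p, row p = x (t + 1) ∧ f (x t) (vec p) ≠ 0 ∧
            p ≠ q (x (t + 1)) ∧ c t = h p - h (q (x t)) := by
          intro t ht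
          rcases hst t ht with h1 | h1
          · exact h1
          · exact (htr ⟨t, ht, h1⟩).elim
        by_contra hT
        rw [hS] at hT
        push Not at hT
        have h0 : ∃ p : ℕ → P, ∀ t, t < k → row (p t) = x (t + 1) ∧ f (x t) (vec (p t)) ≠ 0 ∧
            p t ≠ q (x (t + 1)) ∧ c t = h (p t) - h (q (x t)) := by
          refine ⟨fun t => if ht : t < k then (hst' t ht).choose else q (x 0), fun t ht => ?_⟩
          simp only [dif_pos ht]
          exact (hst' t ht).choose_spec
        obtain ⟨p, hp⟩ := h0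
        have hz : ∀ s t, s < k → t < k → s ≠ t → f (x s) (vec (p t)) ≠ 0 →
            S t - h (q (x t)) < S s - h (q (x s)) := by
          intro s t hs ht hst hfs
          obtain ⟨p1, p2, p3, p4⟩ := hp t ht
          have hone : W row vec h q f 1 (x s) (x (t + 1)) (h (p t) - h (q (x s))) :=
            W_one (Or.inl ⟨p t, p1, hfs, p3, rfl⟩)
          rcases lt_or_gt_of_ne hst with h1 | h1
          · have h2 := W_append (W_append hone (hW2 (t + 1) k (by omega) le_rfl))
              (b' := x s) (w' := S s - S 0) (n' := s - 0)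
              (by rw [hcl]; exact hW2 0 s (Nat.zero_le _) hs.le)
            have h3 := ih _ (by omega) (by omega) _ _ h2
            rw [S0, S1 t] at h3
            linarith
          · have h2 := W_append hone (hW2 (t + 1) s (by omega) hs.le)
            have h3 := ih _ (by omega) (by omega) _ _ h2
            rw [S1 t] at h3
            linarith
        have h1 := simple hq hf1 hf0 hmin k hk x p hcl
          (fun t ht => ⟨(hp t ht).1, (hp t ht).2.1, (hp t ht).2.2.1⟩) hd
          (fun t => S t - h (q (x t))) hz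
        have h2 : ∑ t ∈ Finset.range k, (h (p t) - h (q (x t))) = S k :=
          Finset.sum_congr rfl fun t ht => ((hp t (Finset.mem_range.mp ht)).2.2.2).symm
        rw [h2] at h1
        exact absurd h1 (not_lt.mpr hT)

/-- **Piece CYC** -/
theorem t_CYC : S_CYC := by
  intro P R M _ _ _ row vec h q f hq hf1 hf0 hmin k x c hk hcl hst
  have h1 : ∀ t < k, Step row vec h q f (x t) (x (t + 1)) (c t) := hst
  have h2 := W_of_fun h1 0 k (by omega)
  rw [Nat.zero_add, hcl] at h2
  have h3 := claim hq hf1 hf0 hmin k hk _ _ h2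
  simpa using h3

end CYC

end Pool.Agent.H18RD
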