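import Pool.Agent.H18RD.Stm
import Pool.Agent.H18LI.ELIM

/-!
# Successive elimination of relators
-/

set_option autoImplicit false

namespace Pool.Agent.H18RD.ELIM2

open Function Pool.Agent.R655.LI

variable {I X : Type}

/-- the hypothesis of the piece ELIM2 -/
def Elim (ρ : I → FreeGroup X) : Prop :=
  ∀ D : Finset I, D.Nonempty → ∃ i ∈ D, ∃ σ : FreeGroup X →* FreeGroup X, σ (ρ i) = 1 ∧
    (∀ w, w⁻¹ * σ w ∈ Subgroup.normalClosure {ρ i}) ∧
    ∀ j ∈ D, j ≠ i → ∃ g, σ (ρ j) = g * ρ j * g⁻¹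

/-- finitely many relators can be eliminated -/
theorem exists_retraction (ρ : I → FreeGroup X) (H : Elim ρ) (D : Finset I) :
    ∃ φ : FreeGroup X →* FreeGroup X, (∀ i ∈ D, φ (ρ i) = 1) ∧
      ∀ w, w⁻¹ * φ w ∈ Subgroup.normalClosure (ρ '' D) := by
  classical
  induction' hn : D.card with n ih generalizing D
  · have : D = ∅ := Finset.card_eq_zero.1 hn
    subst this
    refine ⟨MonoidHom.id _, fun i hi => absurd hi (Finset.notMem_empty _), fun w => ?_⟩
    rw [MonoidHom.id_apply, inv_mul_cancel]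
    exact Subgroup.one_mem _
  · have hne : D.Nonempty := Finset.card_pos.1 (by omega)
    obtain ⟨i, hi, σ, h1, h3, h2⟩ := H D hne
    obtain ⟨φ, g1, g2⟩ := ih (D.erase i) (by rw [Finset.card_erase_of_mem hi]; omega)
    refine ⟨φ.comp σ, ?_, ?_⟩
    · intro j hj
      rw [MonoidHom.comp_apply]
      by_cases hji : j = i
      · rw [hji, h1, map_one]
      · obtain ⟨g, hg⟩ := h2 j hj hji
        rw [hg, map_mul, map_mul, g1 j (Finset.mem_erase.2 ⟨hji, hj⟩), mul_one, ← map_mul,
          mul_inv_cancel, map_one]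
    · intro w
      rw [MonoidHom.comp_apply]
      have k1 : w⁻¹ * σ w ∈ Subgroup.normalClosure (ρ '' D) := by
        refine Subgroup.normalClosure_mono ?_ (h3 w)
        rintro _ rfl
        exact ⟨i, hi, rfl⟩
      have k2 : (σ w)⁻¹ * φ (σ w) ∈ Subgroup.normalClosure (ρ '' D) := by
        refine Subgroup.normalClosure_mono ?_ (g2 (σ w))
        exact Set.image_mono (Finset.coe_subset.2 (Finset.erase_subset _ _))
      have := Subgroup.mul_mem _ k1 k2
      rwa [show w⁻¹ * σ w * ((σ w)⁻¹ * φ (σ w)) = w⁻¹ * φ (σ w) by group] at this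

theorem t_ELIM2 : S_ELIM2 := by
  intro I X ρ H
  refine Pool.Agent.H18LI.locInd_of_finite ρ fun D => ?_
  obtain ⟨φ, h1, h2⟩ := exists_retraction ρ H D
  refine ⟨φ, h1, fun w hw => ?_⟩
  have := h2 w
  rw [hw, mul_one] at this
  exact (Subgroup.inv_mem_iff _).1 this

end Pool.Agent.H18RD.ELIM2
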