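import Pool.Agent.H18RD.Stm

/-!
# Piece GAUGE of project H18RD: the gauge substitution
-/

set_option autoImplicit false

namespace Pool.Agent.H18RD.GAUGE

open Function

section tele

variable {G : Type*} [Group G] (σ : G →* G) {m : ℕ} (x : Fin m → G) (g1 g2 : Fin (m + 1) → G)

theorem tele (hx : ∀ s, σ (x s) = g2 s.castSucc * x s * (g1 s.succ)⁻¹) (hg : ∀ s, g1 s = g2 s)
    (j : Fin (m + 1)) :
    σ (Fin.partialProd x j) = g1 0 * Fin.partialProd x j * (g1 j)⁻¹ := by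
  induction j using Fin.induction with
  | zero => rw [Fin.partialProd_zero, map_one, mul_one, mul_inv_cancel]
  | succ j ih =>
    rw [Fin.partialProd_succ, map_mul, ih, hx, hg j.castSucc]
    group

theorem tele_p (p : Fin (m + 1)) (c : G)
    (hx : ∀ s, σ (x s) = g2 s.castSucc * x s * (g1 s.succ)⁻¹) (hp1 : g1 p = 1) (hp2 : g2 p = c)
    (hg : ∀ s, s ≠ p → g1 s = g2 s) (j : Fin (m + 1)) :
    (j ≤ p → σ (Fin.partialProd x j) = g1 0 * Fin.partialProd x j * (g1 j)⁻¹) ∧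
    (p < j → σ (Fin.partialProd x j) = g1 0 * (Fin.partialProd x p * c *
      (Fin.partialProd x p)⁻¹) * Fin.partialProd x j * (g1 j)⁻¹) := by
  induction j using Fin.induction with
  | zero =>
    refine ⟨fun _ => by rw [Fin.partialProd_zero, map_one, mul_one, mul_inv_cancel], fun h => ?_⟩
    exact absurd h (Fin.not_lt_zero p)
  | succ j ih =>
    rcases lt_trichotomy j.castSucc p with h | h | h
    · have h1 : j.succ ≤ p := Fin.castSucc_lt_iff_succ_le.1 h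
      refine ⟨fun _ => ?_, fun h2 => absurd h2 (not_lt.2 h1)⟩
      rw [Fin.partialProd_succ, map_mul, ih.1 h.le, hx, hg j.castSucc h.ne]
      group
    · have h1 : p < j.succ := by
        rw [← h]
        exact Fin.castSucc_lt_succ
      refine ⟨fun h2 => absurd h1 (not_lt.2 h2), fun _ => ?_⟩
      rw [Fin.partialProd_succ, map_mul, ih.1 h.le, hx, h, hp1, hp2]
      group
    · have h1 : p < j.succ := h.trans Fin.castSucc_lt_succ
      refine ⟨fun h2 => absurd h1 (not_lt.2 h2), fun _ => ?_⟩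
      rw [Fin.partialProd_succ, map_mul, ih.2 h, hx, hg j.castSucc h.ne']
      group

theorem tele_last (p : Fin (m + 1)) (c : G)
    (hx : ∀ s, σ (x s) = g2 s.castSucc * x s * (g1 s.succ)⁻¹) (hp1 : g1 p = 1) (hp2 : g2 p = c)
    (hg : ∀ s, s ≠ p → g1 s = g2 s) :
    σ (Fin.partialProd x (Fin.last m)) = g1 0 * (Fin.partialProd x p * c *
      (Fin.partialProd x p)⁻¹) * Fin.partialProd x (Fin.last m) * (g2 (Fin.last m))⁻¹ := by
  have h := tele_p σ x g1 g2 p c hx hp1 hp2 hg (Fin.last m)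
  rcases (Fin.le_last p).eq_or_lt with h1 | h1
  · rw [h.1 h1.ge]
    rw [← h1, hp1, hp2]
    group
  · rw [h.2 h1, hg _ h1.ne']

theorem partialProd_last (x : Fin m → G) :
    Fin.partialProd x (Fin.last m) = (List.ofFn x).prod := by
  unfold Fin.partialProd
  rw [Fin.val_last, List.take_of_length_le (by rw [List.length_ofFn])]

end tele

section gauge

variable {V R : Type} {m : R → ℕ} {B : Set V} {k₀ : ℤ} {c : FreeGroup (V × ℤ)}

open Classical in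
/-- the gauge function -/
noncomputable def ga (B : Set V) (k₀ : ℤ) (c : FreeGroup (V × ℤ)) (x : V) (k : ℤ) :
    FreeGroup (V × ℤ) :=
  if x ∈ B ∧ k = k₀ then c else 1

theorem ga_one {x : V} (k : ℤ) (hx : x ∉ B) : ga B k₀ c x k = 1 := by
  unfold ga
  rw [if_neg fun h2 => hx h2.1]

theorem ga_c {x : V} {k : ℤ} (hx : x ∈ B) (hk : k = k₀) : ga B k₀ c x k = c := by
  unfold ga
  rw [if_pos ⟨hx, hk⟩]

theorem gauge_of (x : V) (k : ℤ) : gauge B k₀ c (FreeGroup.of (x, k)) =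
    ga B k₀ c x k * FreeGroup.of (x, k) * (ga B k₀ c x (k + 1))⁻¹ := by
  unfold gauge ga
  rw [FreeGroup.lift_apply_of]

theorem pot_step (x : V) (k : ℤ) :
    gauge B k₀ c (pot x k) = ga B k₀ c x 0 * pot x k * (ga B k₀ c x k)⁻¹ ↔
      gauge B k₀ c (pot x (k + 1)) =
        ga B k₀ c x 0 * pot x (k + 1) * (ga B k₀ c x (k + 1))⁻¹ := by
  have e : ga B k₀ c x 0 * pot x (k + 1) * (ga B k₀ c x (k + 1))⁻¹ =
      (ga B k₀ c x 0 * pot x k * (ga B k₀ c x k)⁻¹) *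
        (ga B k₀ c x k * FreeGroup.of (x, k) * (ga B k₀ c x (k + 1))⁻¹) := by
    rw [pot_succ]
    group
  rw [e, pot_succ, map_mul, gauge_of, mul_left_inj]

theorem gauge_pot (x : V) (k : ℤ) :
    gauge B k₀ c (pot x k) = ga B k₀ c x 0 * pot x k * (ga B k₀ c x k)⁻¹ := by
  induction k using Int.induction_on with
  | zero => rw [pot_zero, map_one, mul_one, mul_inv_cancel]
  | succ k ih => exact (pot_step x _).1 ih
  | pred k ih =>
    apply (pot_step x _).2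
    rw [sub_add_cancel]
    exact ih

theorem gauge_seg (x : V) (k l : ℤ) :
    gauge B k₀ c (seg x k l) = ga B k₀ c x k * seg x k l * (ga B k₀ c x l)⁻¹ := by
  unfold seg
  rw [map_mul, map_inv, gauge_pot, gauge_pot]
  group

variable {v : ∀ r, Fin (m r + 2) → V} {h : Cor m → ℤ}

/-- the factors of the lift of the conjugating word -/
def fac (v : ∀ r, Fin (m r + 2) → V) (h : Cor m → ℤ) (r : R) (n : ℤ) (s : Fin (m r)) :
    FreeGroup (V × ℤ) :=
  seg (v r s.castSucc.succ) (h ⟨r, s.castSucc⟩ + n) (h ⟨r, s.succ⟩ + n)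

theorem liftW_eq (r : R) (n : ℤ) :
    liftW v h r n = Fin.partialProd (fac v h r n) (Fin.last (m r)) := by
  rw [partialProd_last]
  rfl

theorem gauge_fac (r : R) (n : ℤ) (s : Fin (m r)) :
    gauge B k₀ c (fac v h r n s) =
      ga B k₀ c (lab2 v ⟨r, s.castSucc⟩) (h ⟨r, s.castSucc⟩ + n) * fac v h r n s *
        (ga B k₀ c (lab1 v ⟨r, s.succ⟩) (h ⟨r, s.succ⟩ + n))⁻¹ := by
  unfold fac
  rw [gauge_seg]
  rfl

theorem ga_eq {r : R} {n : ℤ} {s : Fin (m r + 1)}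
    (hs : (lab1 v ⟨r, s⟩ ∈ B ↔ lab2 v ⟨r, s⟩ ∉ B) → h ⟨r, s⟩ + n ≠ k₀) :
    ga B k₀ c (lab1 v ⟨r, s⟩) (h ⟨r, s⟩ + n) = ga B k₀ c (lab2 v ⟨r, s⟩) (h ⟨r, s⟩ + n) := by
  unfold ga
  split_ifs with a b b
  · rfl
  · exact absurd a.2 (hs ⟨fun _ h2 => b ⟨h2, a.2⟩, fun _ => a.1⟩)
  · exact absurd b.2 (hs ⟨fun h1 => absurd ⟨h1, b.2⟩ a, fun h2 => absurd b.1 h2⟩)
  · rfl

/-- no separated corner at the level `k₀` -/
theorem gauge_liftW {r : R} {n : ℤ} (hr : ∀ s : Fin (m r + 1),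
    (lab1 v ⟨r, s⟩ ∈ B ↔ lab2 v ⟨r, s⟩ ∉ B) → h ⟨r, s⟩ + n ≠ k₀) :
    gauge B k₀ c (liftW v h r n) = ga B k₀ c (v r 0) (h ⟨r, 0⟩ + n) * liftW v h r n *
      (ga B k₀ c (v r (Fin.last _)) (h ⟨r, Fin.last _⟩ + n))⁻¹ := by
  rw [liftW_eq]
  have h1 := tele (gauge B k₀ c) (fac v h r n)
    (fun s => ga B k₀ c (lab1 v ⟨r, s⟩) (h ⟨r, s⟩ + n))
    (fun s => ga B k₀ c (lab2 v ⟨r, s⟩) (h ⟨r, s⟩ + n)) (fun s => gauge_fac r n s)
    (fun s => ga_eq (hr s)) (Fin.last (m r))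
  rw [ga_eq (hr (Fin.last (m r)))] at h1
  exact h1

/-- one separated corner at the level `k₀` -/
theorem gauge_liftW_p {r : R} {n : ℤ} (p : Fin (m r + 1)) (hp1 : lab1 v ⟨r, p⟩ ∉ B)
    (hp2 : lab2 v ⟨r, p⟩ ∈ B) (hp : h ⟨r, p⟩ + n = k₀) (hr : ∀ s : Fin (m r + 1),
    (lab1 v ⟨r, s⟩ ∈ B ↔ lab2 v ⟨r, s⟩ ∉ B) → h ⟨r, s⟩ + n = k₀ → s = p) :
    gauge B k₀ c (liftW v h r n) = ga B k₀ c (v r 0) (h ⟨r, 0⟩ + n) *
      (Fin.partialProd (fac v h r n) p * c * (Fin.partialProd (fac v h r n) p)⁻¹) *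
      liftW v h r n * (ga B k₀ c (v r (Fin.last _)) (h ⟨r, Fin.last _⟩ + n))⁻¹ := by
  rw [liftW_eq]
  have h1 := tele_last (gauge B k₀ c) (fac v h r n)
    (fun s => ga B k₀ c (lab1 v ⟨r, s⟩) (h ⟨r, s⟩ + n))
    (fun s => ga B k₀ c (lab2 v ⟨r, s⟩) (h ⟨r, s⟩ + n)) p c (fun s => gauge_fac r n s)
    (ga_one _ hp1) (ga_c hp2 hp)
    (fun s hs => ga_eq fun h2 h3 => hs (hr s h2 h3))
  exact h1

/-- the relator is conjugated -/
theorem gauge_shift {r : R} {n : ℤ} (hr : ∀ s : Fin (m r + 1),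
    (lab1 v ⟨r, s⟩ ∈ B ↔ lab2 v ⟨r, s⟩ ∉ B) → h ⟨r, s⟩ + n ≠ k₀ ∧ h ⟨r, s⟩ + n + 1 ≠ k₀) :
    gauge B k₀ c (shiftRel v h r n) = ga B k₀ c (v r 0) (h ⟨r, 0⟩ + n) * shiftRel v h r n *
      (ga B k₀ c (v r 0) (h ⟨r, 0⟩ + n))⁻¹ := by
  have h1 := gauge_liftW (c := c) (v := v) (h := h) (r := r) (n := n) fun s hs => (hr s hs).1
  have h2 := gauge_liftW (c := c) (v := v) (h := h) (r := r) (n := n + 1) fun s hs => by
    have := (hr s hs).2
    rwa [add_assoc] at this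
  unfold shiftRel
  rw [map_mul, map_mul, map_mul, map_inv, map_inv, gauge_of, gauge_of, h1, h2, ← add_assoc,
    ← add_assoc]
  group

/-- the relator is multiplied by the inverse of the conjugate of `c` -/
theorem gauge_shift_p {r : R} {n : ℤ} (p : Fin (m r + 1)) (hp1 : lab1 v ⟨r, p⟩ ∉ B)
    (hp2 : lab2 v ⟨r, p⟩ ∈ B) (hp : h ⟨r, p⟩ + n = k₀) (hr : ∀ s : Fin (m r + 1),
    (lab1 v ⟨r, s⟩ ∈ B ↔ lab2 v ⟨r, s⟩ ∉ B) → (h ⟨r, s⟩ + n = k₀ → s = p) ∧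
      h ⟨r, s⟩ + n + 1 ≠ k₀) :
    gauge B k₀ c (shiftRel v h r n) = ga B k₀ c (v r 0) (h ⟨r, 0⟩ + n) * (shiftRel v h r n *
      (Fin.partialProd (fac v h r n) p * c * (Fin.partialProd (fac v h r n) p)⁻¹)⁻¹) *
      (ga B k₀ c (v r 0) (h ⟨r, 0⟩ + n))⁻¹ := by
  have h1 := gauge_liftW_p (c := c) (v := v) (h := h) p hp1 hp2 hp fun s hs => (hr s hs).1
  have h2 := gauge_liftW (c := c) (v := v) (h := h) (r := r) (n := n + 1) fun s hs => by
    have := (hr s hs).2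
    rwa [add_assoc] at this
  unfold shiftRel
  rw [map_mul, map_mul, map_mul, map_inv, map_inv, gauge_of, gauge_of, h1, h2, ← add_assoc,
    ← add_assoc]
  group

theorem gauge_mod {N : Subgroup (FreeGroup (V × ℤ))} [N.Normal] (hc : c ∈ N)
    (w : FreeGroup (V × ℤ)) : w⁻¹ * gauge B k₀ c w ∈ N := by
  rw [← QuotientGroup.eq]
  have hga : ∀ x k, (QuotientGroup.mk' N) (ga B k₀ c x k) = 1 := by
    intro x k
    rw [QuotientGroup.mk'_apply, QuotientGroup.eq_one_iff]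
    unfold ga
    split_ifs
    · exact hc
    · exact one_mem N
  have key : (QuotientGroup.mk' N) = (QuotientGroup.mk' N).comp (gauge B k₀ c) := by
    apply FreeGroup.ext_hom
    rintro ⟨x, k⟩
    rw [MonoidHom.comp_apply, gauge_of, map_mul, map_mul, map_inv, hga, hga, inv_one, one_mul,
      mul_one]
  exact congrArg (fun f : FreeGroup (V × ℤ) →* FreeGroup (V × ℤ) ⧸ N => f w) key

end gauge

theorem t_GAUGE : S_GAUGE := by
  intro V R m v h B k₀ r n p hpr hp1 hp2 hp hr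
  obtain ⟨r', p⟩ := p
  change r' = r at hpr
  subst hpr
  set A := Fin.partialProd (fac v h r' n) p with hA
  have hr' : ∀ s : Fin (m r' + 1), (lab1 v ⟨r', s⟩ ∈ B ↔ lab2 v ⟨r', s⟩ ∉ B) →
      (h ⟨r', s⟩ + n = k₀ → s = p) ∧ h ⟨r', s⟩ + n + 1 ≠ k₀ := by
    intro s hs
    refine ⟨fun h1 => ?_, (hr ⟨r', s⟩ rfl hs).2⟩
    have h2 := (hr ⟨r', s⟩ rfl hs).1 h1
    simpa using h2
  refine ⟨gauge B k₀ (A⁻¹ * shiftRel v h r' n * A), ?_, fun w => ?_, fun r₁ n₁ h₁ => ?_⟩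
  · rw [gauge_shift_p p hp1 hp2 hp hr', ← hA]
    group
  · apply gauge_mod
    have h1 : (Subgroup.normalClosure {shiftRel v h r' n}).Normal := inferInstance
    have h2 := h1.conj_mem _ (Subgroup.subset_normalClosure
      (Set.mem_singleton (shiftRel v h r' n))) A⁻¹
    rwa [inv_inv] at h2
  · exact ⟨_, gauge_shift fun s hs => h₁ ⟨r₁, s⟩ rfl hs⟩

end Pool.Agent.H18RD.GAUGE
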