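import Pool.Agent.H18RD.ELIM2
import Pool.Agent.H18LI.SUB
import Pool.Agent.H18LI.ISO

/-!
# Assembly of the main result
-/

set_option autoImplicit false

namespace Pool.Agent.H18RD.Main

open Function Pool.Agent.R655.LI

/-- dual functionals of a linearly independent family -/
theorem exists_dual {R M : Type} [AddCommGroup M] [Module ℚ M] (u : R → M)
    (hu : LinearIndependent ℚ u) : ∃ f : R → M →ₗ[ℚ] ℚ,
      (∀ i, f i (u i) = 1) ∧ ∀ i j, i ≠ j → f i (u j) = 0 := by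
  classical
  have key : ∀ i : R, ∃ g : M →ₗ[ℚ] ℚ, ∀ j, g (u j) = if i = j then 1 else 0 := by
    intro i
    obtain ⟨g, hg⟩ := LinearMap.exists_extend
      ((Finsupp.lapply i : (R →₀ ℚ) →ₗ[ℚ] ℚ).comp (hu.repr : Submodule.span ℚ (Set.range u) →ₗ[ℚ] _))
    refine ⟨g, fun j => ?_⟩
    have h1 := LinearMap.congr_fun hg ⟨u j, Submodule.subset_span ⟨j, rfl⟩⟩
    have h2 : hu.repr ⟨u j, Submodule.subset_span ⟨j, rfl⟩⟩ = Finsupp.single j 1 :=
      hu.repr_eq_single j _ rfl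
    have h3 : g (u j) = (hu.repr ⟨u j, Submodule.subset_span ⟨j, rfl⟩⟩) i := h1
    rw [h3, h2, Finsupp.single_apply]
    by_cases h : i = j
    · rw [if_pos h, if_pos h.symm]
    · rw [if_neg h, if_neg fun h' => h h'.symm]
  choose f hf using key
  exact ⟨f, fun i => by rw [hf, if_pos rfl], fun i j h => by rw [hf, if_neg h]⟩

section

variable {V R : Type} {m : R → ℕ}

/-- the main step: a unique minimal selection -/
theorem li_of_unique (hCov : S_COV2) (hG : S_GAUGE) (hC : S_CYC) (hW : S_WALK2) [Fintype R]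
    (v : ∀ r, Fin (m r + 2) → V) (h : Cor m → ℤ) (q : R → Cor m) (hq : IsSel v q)
    (hmin : ∀ q' : R → Cor m, IsSel v q' → q' ≠ q → ∑ r, h (q r) < ∑ r, h (q' r)) (S : Set R) :
    LocInd (PresentedGroup (Set.range fun r : S => wirt v h r)) := by
  classical
  refine hCov V R m v h S ?_
  refine ELIM2.t_ELIM2 (S × ℤ) (V × ℤ) (fun i => shiftRel v h i.1 i.2) ?_
  intro D hD
  obtain ⟨f, hf1, hf0⟩ := exists_dual (fun r => vec v (q r)) hq.2
  obtain ⟨d, hd, hd'⟩ := hW hC (Cor m) R (V → ℚ) Sigma.fst (vec v) h q f hq.1 hf1 hf0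
    (fun q' h1 h2 h3 => hmin q' ⟨h1, h2⟩ h3) (D.image fun i => ((i.1 : R), i.2)) (hD.image _)
  obtain ⟨i, hi, rfl⟩ := Finset.mem_image.1 hd
  let F : V → ℚ := fun x => f i.1 (Pi.single x 1)
  let B : Set V := {x | F x ≠ F (lab1 v (q i.1))}
  have hsep : ∀ p : Cor m, (lab1 v p ∈ B ↔ lab2 v p ∉ B) → f i.1 (vec v p) ≠ 0 := by
    intro p hp h0
    have h1 : F (lab2 v p) - F (lab1 v p) = 0 := by
      rw [vec, map_sub] at h0
      convert h0
    have h2 : F (lab2 v p) = F (lab1 v p) := sub_eq_zero.1 h1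
    have h3 : lab2 v p ∈ B ↔ lab1 v p ∈ B := by
      show F (lab2 v p) ≠ _ ↔ F (lab1 v p) ≠ _
      rw [h2]
    rw [h3] at hp
    exact iff_not_self hp
  obtain ⟨σ, hσ1, hσ2, hσ3⟩ := hG V R m v h B (h (q i.1) + i.2) i.1 i.2 (q i.1) (hq.1 _)
    (by intro h1; exact h1 rfl)
    (by
      show F (lab2 v (q i.1)) ≠ F (lab1 v (q i.1))
      intro h1
      have h2 := hf1 i.1
      rw [vec, map_sub] at h2
      have h3 : F (lab2 v (q i.1)) - F (lab1 v (q i.1)) = 1 := by convert h2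
      rw [h1, sub_self] at h3
      exact zero_ne_one h3)
    rfl
    (by
      intro p' hp' hs
      obtain ⟨g1, g2⟩ := hd' (i.1, i.2) hd p' hp' (hsep p' hs)
      exact ⟨fun h1 => (g1 h1).2, g2⟩)
  refine ⟨i, hi, σ, hσ1, hσ2, fun j hj hji => hσ3 j.1 j.2 ?_⟩
  intro p' hp' hs
  obtain ⟨g1, g2⟩ := hd' (j.1, j.2) (Finset.mem_image_of_mem _ hj) p' hp' (hsep p' hs)
  refine ⟨fun h1 => hji ?_, g2⟩
  obtain ⟨f1, f2⟩ := Prod.mk_inj.1 (g1 h1).1
  exact Prod.ext (Subtype.ext f1) f2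

theorem sub_locInd (v : ∀ r, Fin (m r + 2) → V) (h : Cor m → ℤ)
    (hS : ∀ S : Set R, LocInd (PresentedGroup (Set.range fun r : S => wirt v h r)))
    (K : Cx) (s : Sub K (ribbon v h)) : LocInd K.Pi := by
  classical
  let S : Set R := {r | ∃ j, s.c j = r}
  refine Pool.Agent.H18LI.locInd_retract K (A := V) (fun x => s.v x) s.v.injective
    (fun r : S => wirt v h r) ?_ ?_ (hS S)
  · intro j
    exact ⟨⟨s.c j, j, rfl⟩, s.comm j⟩
  · rintro ⟨r, j, rfl⟩
    exact ⟨j, s.comm j⟩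

end

theorem main (hCov : S_COV2) (hG : S_GAUGE) (hC : S_CYC) (hW : S_WALK2) (hT : S_TREE)
    (hSel : S_SEL2) (hK : S_CONTR2) : S_MAIN := by
  classical
  intro V R _ _ m v hv
  refine ⟨fun h v₀ => hK V R m v hv h v₀, ?_, ?_⟩
  · intro h ht K s
    have hne : {q : R → Cor m | IsSel v q}.Nonempty := hSel V R m v (hT V R m v hv)
    obtain ⟨q, hq, hqmin⟩ := Set.exists_min_image {q : R → Cor m | IsSel v q}
      (fun q => ∑ r, h (q r)) (Set.toFinite _) hne
    refine sub_locInd v h (fun S => li_of_unique hCov hG hC hW v h q hq ?_ S) K s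
    intro q' hq' hne'
    by_contra hle
    push Not at hle
    exact ht ⟨q, q', hq, hq', Ne.symm hne', hqmin, fun q'' hq'' => hle.trans (hqmin q'' hq'')⟩
  · intro N
    have hcard : Fintype.card (Cor m) = ∑ r, (m r + 1) := by
      rw [Fintype.card_sigma]
      exact Finset.sum_congr rfl fun r _ => Fintype.card_fin _
    have h1 := Pool.Agent.H18LI.t_ISO (Cor m) R Sigma.fst N {q | IsSel v q} (fun q hq => hq.1)
    rw [hcard] at h1
    refine le_trans (Nat.mul_le_mul_right N (Set.ncard_le_ncard ?_ (Set.toFinite _))) h1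
    rintro h ⟨q₁, q₂, h1, h2, h3, h4, h5⟩
    refine ⟨q₁, h1, q₂, h2, h3, fun q hq => ?_, fun q hq => ?_⟩
    · have := h4 q hq
      simp only at this
      exact_mod_cast this
    · have := h5 q hq
      simp only at this
      exact_mod_cast this

end Pool.Agent.H18RD.Main
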