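import Pool.Agent.H18RD.Stm

/-!
# Piece SEL2 of project H18RD
-/

set_option autoImplicit false
set_option linter.unusedSectionVars false

namespace Pool.Agent.H18RD.SEL2

open Function Pool.Agent.R655.LI
open scoped Classical

/-- one member of a linearly independent family can be replaced by any vector outside the span of the
others -/
theorem repl {R M : Type} [Fintype R] [AddCommGroup M] [Module ℚ M] {G : R → M}
    (hG : LinearIndependent ℚ G) (a : R) (y : M)
    (hy : y ∉ Submodule.span ℚ (G '' {r | r ≠ a})) :
    LinearIndependent ℚ (update G a y) := by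
  rw [Fintype.linearIndependent_iff] at hG ⊢
  intro c hc
  have h1 : c a • y + ∑ r ∈ Finset.univ.erase a, c r • G r = 0 := by
    rw [← hc, ← Finset.add_sum_erase Finset.univ (fun r => c r • update G a y r)
      (Finset.mem_univ a), update_self]
    congr 1
    refine Finset.sum_congr rfl fun r hr => ?_
    rw [update_of_ne (Finset.ne_of_mem_erase hr)]
  have h2 : c a = 0 := by
    by_contra hne
    apply hy
    have h3 : y = -((c a)⁻¹ • ∑ r ∈ Finset.univ.erase a, c r • G r) := by
      have h4 := eq_neg_of_add_eq_zero_left h1
      rw [← smul_neg, ← h4, smul_smul, inv_mul_cancel₀ hne, one_smul]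
    rw [h3]
    refine neg_mem (Submodule.smul_mem _ _ (Submodule.sum_mem _ fun r hr => ?_))
    exact Submodule.smul_mem _ _ (Submodule.subset_span ⟨r, Finset.ne_of_mem_erase hr, rfl⟩)
  rw [h2, zero_smul, zero_add] at h1
  apply hG
  rw [← Finset.add_sum_erase Finset.univ (fun r => c r • G r) (Finset.mem_univ a), h2, zero_smul,
    zero_add, h1]

/-- the selection -/
theorem sel {R M : Type} [Fintype R] [AddCommGroup M] [Module ℚ M] (n : R → ℕ)
    (y : ∀ r, Fin (n r) → M) (g : R → M) (hg : ∀ r, g r = ∑ s, y r s)
    (hi : LinearIndependent ℚ g) : ∃ s : ∀ r, Fin (n r), LinearIndependent ℚ fun r => y r (s r) := by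
  have hne : ∀ r, Nonempty (Fin (n r)) := by
    intro r
    by_contra h
    rw [not_nonempty_iff] at h
    have h1 := hi.ne_zero r
    rw [hg r] at h1
    exact h1 (Finset.sum_of_isEmpty _)
  have key : ∀ T : Finset R, ∃ s : ∀ r, Fin (n r),
      LinearIndependent ℚ fun r => if r ∈ T then y r (s r) else g r := by
    intro T
    induction T using Finset.induction_on with
    | empty =>
      refine ⟨fun r => (hne r).some, ?_⟩
      simpa using hi
    | insert a T ha ih =>
      obtain ⟨s, hs⟩ := ih
      set G : R → M := fun r => if r ∈ T then y r (s r) else g r with hGdef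
      have hGa : G a = ∑ t, y a t := by
        rw [hGdef]
        simp only [if_neg ha]
        exact hg a
      have hGn : G a ∉ Submodule.span ℚ (G '' {r | r ≠ a}) := by
        have h1 := (linearIndependent_iff_notMem_span.mp hs) a
        have h2 : (Set.univ \ {a} : Set R) = {r | r ≠ a} := by
          ext r
          simp
        rwa [h2] at h1
      obtain ⟨t, ht⟩ : ∃ t, y a t ∉ Submodule.span ℚ (G '' {r | r ≠ a}) := by
        by_contra hcon
        push Not at hcon
        apply hGn
        rw [hGa]
        exact Submodule.sum_mem _ fun t _ => hcon t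
      refine ⟨update s a t, ?_⟩
      have h1 := repl hs a (y a t) ht
      convert h1 using 1
      funext r
      by_cases hr : r = a
      · subst hr
        rw [update_self, if_pos (Finset.mem_insert_self _ _), update_self]
      · by_cases hr2 : r ∈ T
        · rw [if_pos (Finset.mem_insert_of_mem hr2), update_of_ne hr, update_of_ne hr]
          exact (if_pos hr2).symm
        · rw [if_neg (by rw [Finset.mem_insert]; push Not; exact ⟨hr, hr2⟩), update_of_ne hr]
          exact (if_neg hr2).symm
  obtain ⟨s, hs⟩ := key Finset.univ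
  exact ⟨s, by simpa using hs⟩

/-- a telescoping sum -/
theorem tele {M : Type} [AddCommGroup M] (n : ℕ) (F : Fin (n + 2) → M) :
    F (Fin.last _) - F 0 = ∑ s : Fin (n + 1), (F s.succ - F s.castSucc) := by
  rw [Finset.sum_sub_distrib]
  have h1 := Fin.sum_univ_succ F
  have h2 := Fin.sum_univ_castSucc F
  rw [h1] at h2
  rw [sub_eq_sub_iff_add_eq_add, add_comm, ← h2, add_comm]

/-- **Piece SEL2** -/
theorem t_SEL2 : S_SEL2 := by
  intro V R _ _ inst m v hi
  obtain rfl : inst = fun a b => Classical.propDecidable (a = b) := Subsingleton.elim _ _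
  have := Fintype.ofFinite R
  obtain ⟨s, hs⟩ := sel (fun r => m r + 1) (fun r s => vec v ⟨r, s⟩)
    (fun r : R => (Pi.single (v r (Fin.last _)) 1 - Pi.single (v r 0) 1 : V → ℚ)) (by
      intro r
      have h1 := tele (m r) fun s => (Pi.single (v r s) 1 : V → ℚ)
      rw [h1]
      exact Finset.sum_congr rfl fun s _ => rfl) hi
  exact ⟨fun r => ⟨r, s r⟩, fun _ => rfl, hs⟩

end Pool.Agent.H18RD.SEL2
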