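import Pool.Agent.R655.LI.Main

/-!
# MP_cf50d6_gt: almost all ribbon-disc (Wirtinger) presentations

Definitions and the exact statements of the pieces (project H18RD, helper18). Every piece is a `Prop`
`S_X`; prove `theorem t_X : S_X` in `Pool/Agent/H18RD/X.lean`, namespace `Pool.Agent.H18RD.X` (own
namespace `X` for the auxiliary lemmas, so that names do not clash; `t_X` itself in it as well).
-/

set_option autoImplicit false

namespace Pool.Agent.H18RD

open Function Pool.Agent.R655.LI

section defs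

variable {V R : Type} {m : R → ℕ}

/-- the corners: the corner `⟨r, s⟩`, `s = 0, ..., m r`, lies between the labels `v r s` and
`v r (s + 1)` of the sequence of labels `v r 0, ..., v r (m r + 1)` -/
abbrev Cor (m : R → ℕ) : Type := Σ r : R, Fin (m r + 1)

/-- the label before a corner -/
def lab1 (v : ∀ r, Fin (m r + 2) → V) (p : Cor m) : V := v p.1 p.2.castSucc

/-- the label after a corner -/
def lab2 (v : ∀ r, Fin (m r + 2) → V) (p : Cor m) : V := v p.1 p.2.succ

/-- the word `w = v₁ ^ (h₁ - h₀) v₂ ^ (h₂ - h₁) ... v_m ^ (h_m - h_(m - 1))` of the relator `r`, where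
`v_s = v r s`, `h_s = h ⟨r, s⟩` -/
def conjWord (v : ∀ r, Fin (m r + 2) → V) (h : Cor m → ℤ) (r : R) : FreeGroup V :=
  (List.ofFn fun s : Fin (m r) =>
    FreeGroup.of (v r s.castSucc.succ) ^ (h ⟨r, s.succ⟩ - h ⟨r, s.castSucc⟩)).prod

/-- the Wirtinger relator `v₀ w v_(m + 1)⁻¹ w⁻¹` -/
def wirt (v : ∀ r, Fin (m r + 2) → V) (h : Cor m → ℤ) (r : R) : FreeGroup V :=
  FreeGroup.of (v r 0) * conjWord v h r * (FreeGroup.of (v r (Fin.last _)))⁻¹ * (conjWord v h r)⁻¹

/-- the complex with one vertex, 1-cells `V`, and 2-cells `R` attached along the Wirtinger relators -/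
def ribbon (v : ∀ r, Fin (m r + 2) → V) (h : Cor m → ℤ) : Cx := ⟨V, R, wirt v h⟩

/-- `ribbon v h` with one more 2-cell attached along the 1-cell `v₀` -/
def cap (v : ∀ r, Fin (m r + 2) → V) (h : Cor m → ℤ) (v₀ : V) : Cx :=
  ⟨V, Option R, fun r => r.elim (FreeGroup.of v₀) (wirt v h)⟩

/-- the graph with the vertices `V` and an edge from `v r 0` to `v r (m r + 1)` for every `r : R` is a
finite tree: it is connected and has one more vertex than edges -/
def IsTree (v : ∀ r, Fin (m r + 2) → V) : Prop :=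
  (∀ x y : V, Relation.EqvGen (fun x y => ∃ r, v r 0 = x ∧ v r (Fin.last _) = y) x y) ∧
    Nat.card V = Nat.card R + 1

open Classical in
/-- the vector `e_(lab2 p) - e_(lab1 p)` of a corner -/
noncomputable def vec (v : ∀ r, Fin (m r + 2) → V) (p : Cor m) : V → ℚ :=
  Pi.single (lab2 v p) 1 - Pi.single (lab1 v p) 1

/-- a selection of one corner from every sequence of labels such that the vectors
`e_(lab2) - e_(lab1)` of the selected corners are linearly independent, i.e. the edges joining the two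
labels of the selected corners form a forest -/
def IsSel (v : ∀ r, Fin (m r + 2) → V) (q : R → Cor m) : Prop :=
  (∀ r, (q r).1 = r) ∧ LinearIndependent ℚ fun r => vec v (q r)

/-- the heights `h` have a tie: there are two different selections of minimal total height -/
def Tie [Fintype R] (v : ∀ r, Fin (m r + 2) → V) (h : Cor m → ℤ) : Prop :=
  ∃ q₁ q₂ : R → Cor m, IsSel v q₁ ∧ IsSel v q₂ ∧ q₁ ≠ q₂ ∧
    (∀ q, IsSel v q → ∑ r, h (q₁ r) ≤ ∑ r, h (q r)) ∧
    (∀ q, IsSel v q → ∑ r, h (q₂ r) ≤ ∑ r, h (q r))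

/-! The infinite cyclic covering: the letter `(v, k)` is the 1-cell `v` from level `k` to `k + 1`. -/

/-- the path from level `0` to level `n` along the 1-cells `v` -/
def potN (v : V) : ℕ → FreeGroup (V × ℤ)
  | 0 => 1
  | n + 1 => potN v n * FreeGroup.of (v, (n : ℤ))

/-- the path from level `0` to level `-n` along the 1-cells `v` -/
def potM (v : V) : ℕ → FreeGroup (V × ℤ)
  | 0 => 1
  | n + 1 => potM v n * (FreeGroup.of (v, -((n : ℤ) + 1)))⁻¹

/-- the path from level `0` to level `k` along the 1-cells `v`; use only `pot_zero`, `pot_succ` -/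
def pot (v : V) : ℤ → FreeGroup (V × ℤ)
  | Int.ofNat n => potN v n
  | Int.negSucc n => potM v (n + 1)

theorem pot_zero (v : V) : pot v 0 = 1 := rfl

theorem pot_succ (v : V) (k : ℤ) : pot v (k + 1) = pot v k * FreeGroup.of (v, k) := by
  cases k with
  | ofNat n => rfl
  | negSucc n =>
    cases n with
    | zero =>
      show (1 : FreeGroup (V × ℤ)) = potM v 1 * FreeGroup.of (v, -1)
      show (1 : FreeGroup (V × ℤ)) = 1 * (FreeGroup.of (v, -(((0 : ℕ) : ℤ) + 1)))⁻¹ *
        FreeGroup.of (v, -1)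
      simp
    | succ n =>
      have e : Int.negSucc (n + 1) + 1 = Int.negSucc n := by omega
      have e2 : Int.negSucc (n + 1) = -(((n + 1 : ℕ) : ℤ) + 1) := by omega
      rw [e]
      show potM v (n + 1) = potM v (n + 1) * (FreeGroup.of (v, -(((n + 1 : ℕ) : ℤ) + 1)))⁻¹ *
        FreeGroup.of (v, Int.negSucc (n + 1))
      rw [e2, inv_mul_cancel_right]

/-- the path from level `k` to level `l` along the 1-cells `v` -/
def seg (v : V) (k l : ℤ) : FreeGroup (V × ℤ) := (pot v k)⁻¹ * pot v l

/-- the lift of `conjWord` that starts at level `h ⟨r, 0⟩ + n` -/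
def liftW (v : ∀ r, Fin (m r + 2) → V) (h : Cor m → ℤ) (r : R) (n : ℤ) : FreeGroup (V × ℤ) :=
  (List.ofFn fun s : Fin (m r) =>
    seg (v r s.castSucc.succ) (h ⟨r, s.castSucc⟩ + n) (h ⟨r, s.succ⟩ + n)).prod

/-- the lift of the relator that starts at level `h ⟨r, 0⟩ + n` -/
def shiftRel (v : ∀ r, Fin (m r + 2) → V) (h : Cor m → ℤ) (r : R) (n : ℤ) : FreeGroup (V × ℤ) :=
  FreeGroup.of (v r 0, h ⟨r, 0⟩ + n) * liftW v h r (n + 1) *
    (FreeGroup.of (v r (Fin.last _), h ⟨r, Fin.last _⟩ + n))⁻¹ * (liftW v h r n)⁻¹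

end defs

/-- Piece ELIM2. Suppose that for every finite nonempty set `D` of relators there are `i ∈ D` and an
endomorphism `σ` of the free group that kills `ρ i`, is the identity modulo `ρ i`, and maps every other
`ρ j`, `j ∈ D`, to a conjugate of `ρ j`. Then the presented group is locally indicable.
Proof: as `Pool/Agent/H18LI/ELIM.lean` (`exists_retraction`, `locInd_of_finite`): by induction on `|D|`
there is `φ` with `φ (ρ i) = 1` for `i ∈ D` and `w⁻¹ φ w ∈ ⟨⟨ρ '' D⟩⟩`. -/
def S_ELIM2 : Prop :=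
  ∀ (I X : Type) (ρ : I → FreeGroup X),
    (∀ D : Finset I, D.Nonempty → ∃ i ∈ D, ∃ σ : FreeGroup X →* FreeGroup X, σ (ρ i) = 1 ∧
      (∀ w, w⁻¹ * σ w ∈ Subgroup.normalClosure {ρ i}) ∧
      ∀ j ∈ D, j ≠ i → ∃ g, σ (ρ j) = g * ρ j * g⁻¹) →
    LocInd (PresentedGroup (Set.range ρ))

/-- Piece COV2. If the group with generators `V × ℤ` and relators all the lifts of the relators in `S`
is locally indicable, so is the group with generators `V` and the relators in `S`.
Proof: as `Pool/Agent/H18LI/COV.lean` (reuse `locInd_semidirect`, `locInd_of_injective`; copy the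
construction of the shift automorphism): the latter embeds into the semidirect product of the former
with `ℤ` by `x ↦ inl (x, 0) * inr 1`. For `inr k * φ(x)^n = inl (seg x k (k + n)) * inr (k + n)` use
`pot_zero`, `pot_succ` and integer induction (first: the shift by 1 maps `seg x k l` to
`seg x (k + 1) (l + 1)` in the free group). So `inr (h₀ + n) * φ(conjWord)`
`= inl (liftW n) * inr (h_m + n)` (induction along the list), and
`inr (h₀ + n) * φ(wirt) * inr (-(h₀ + n)) = inl (shiftRel n)`. The left inverse is `(x, k) ↦ x`,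
`inr 1 ↦ 1`; it is well defined as `seg x k l ↦ x ^ (l - k)`, so `shiftRel ↦ wirt`. -/
def S_COV2 : Prop :=
  ∀ (V R : Type) (m : R → ℕ) (v : ∀ r, Fin (m r + 2) → V) (h : Cor m → ℤ) (S : Set R),
    LocInd (PresentedGroup (Set.range fun i : S × ℤ => shiftRel v h i.1 i.2)) →
    LocInd (PresentedGroup (Set.range fun r : S => wirt v h r))

/-- the endomorphism `(x, k) ↦ γ (x, k) * (x, k) * γ (x, k + 1)⁻¹`, where `γ (x, k) = c` if `x ∈ B` and
`k = k₀`, and `1` otherwise -/
noncomputable def gauge {V : Type} (B : Set V) (k₀ : ℤ) (c : FreeGroup (V × ℤ)) :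
    FreeGroup (V × ℤ) →* FreeGroup (V × ℤ) :=
  open Classical in
  FreeGroup.lift fun x => (if x.1 ∈ B ∧ x.2 = k₀ then c else 1) * FreeGroup.of x *
    (if x.1 ∈ B ∧ x.2 + 1 = k₀ then c else 1)⁻¹

/-- Piece GAUGE. `B` is a set of labels; a corner is separated by `B` if exactly one of its two labels
is in `B`. Suppose `p` is a corner of `r` with `lab1 p ∉ B`, `lab2 p ∈ B`, `h p + n = k₀`, and all other
separated corners `p'` of `r` have `h p' + n ≠ k₀`, and all of them `h p' + n + 1 ≠ k₀`. Then `c` can be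
chosen such that `gauge B k₀ c` kills `shiftRel r n` and is the identity modulo it; and it maps
`shiftRel r' n'` to a conjugate if no separated corner `p'` of `r'` has `h p' + n' = k₀` or
`h p' + n' + 1 = k₀`.
Proof. Let `γ (x, k) = c` if `x ∈ B ∧ k = k₀`, else `1`, `σ = gauge B k₀ c`. Then
`σ (pot x k) = γ (x, 0) * pot x k * γ (x, k)⁻¹` (integer induction from `pot_succ`), so
`σ (seg x k l) = γ (x, k) * seg x k l * γ (x, l)⁻¹`. With `v_s`, `h_s` for the relator `r`,
`σ (liftW n) = ∏_s γ (v_(s+1), h_s + n) seg γ (v_(s+1), h_(s+1) + n)⁻¹`. If no separated corner of `r` has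
`h_s + n = k₀`, then `γ (v_s, h_s + n) = γ (v_(s+1), h_s + n)` for all `s` and the product telescopes to
`γ (v_0, h_0 + n) * liftW n * γ (v_(m+1), h_m + n)⁻¹`. If the only separated corner with `h_s + n = k₀`
is `p`, it is `γ (v_0, h_0 + n) * A * c * A' * γ (v_(m+1), h_m + n)⁻¹`, where `liftW n = A * A'` (`A` =
product of the first `p.2` factors, independent of `c`; `γ (v_p)⁻¹ γ (v_(p+1)) = c`). So, as no corner
of `r` contributes at `n + 1`,
`σ (shiftRel n) = γ₀ * of (v_0, h_0 + n) * liftW (n+1) * (of (v_(m+1), h_m + n))⁻¹ * A'⁻¹ * c⁻¹ * A⁻¹ * γ₀⁻¹`,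
`γ₀ = γ (v_0, h_0 + n)`, and `c = A⁻¹ * shiftRel n * A` makes it `1` (as `A'⁻¹ = (liftW n)⁻¹ * A`). As `c`
is in the normal closure of `shiftRel n`, `σ` is the identity modulo it (compare on generators). -/
def S_GAUGE : Prop :=
  ∀ (V R : Type) (m : R → ℕ) (v : ∀ r, Fin (m r + 2) → V) (h : Cor m → ℤ) (B : Set V) (k₀ : ℤ)
    (r : R) (n : ℤ) (p : Cor m), p.1 = r → lab1 v p ∉ B → lab2 v p ∈ B → h p + n = k₀ →
    (∀ p' : Cor m, p'.1 = r → (lab1 v p' ∈ B ↔ lab2 v p' ∉ B) →
      (h p' + n = k₀ → p' = p) ∧ h p' + n + 1 ≠ k₀) →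
    ∃ σ : FreeGroup (V × ℤ) →* FreeGroup (V × ℤ), σ (shiftRel v h r n) = 1 ∧
      (∀ w, w⁻¹ * σ w ∈ Subgroup.normalClosure {shiftRel v h r n}) ∧
      ∀ (r' : R) (n' : ℤ), (∀ p' : Cor m, p'.1 = r' → (lab1 v p' ∈ B ↔ lab2 v p' ∉ B) →
        h p' + n' ≠ k₀ ∧ h p' + n' + 1 ≠ k₀) →
        ∃ g, σ (shiftRel v h r' n') = g * shiftRel v h r' n' * g⁻¹

/-- Piece CYC. `P` = corners, `row p` = its relator, `vec p` = its vector; `q` is a selection with
`f i (vec (q j)) = δ i j`, and the unique one of minimal weight among the selections with linearly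
independent vectors. A closed walk in `R` consists of steps `x t → x (t + 1)` of weight
`h p - h (q (x t))`, `row p = x (t + 1)`, `f (x t) (vec p) ≠ 0`, `p ≠ q (x (t + 1))`, and of trivial
steps `x (t + 1) = x t` of positive weight. Every closed walk has positive total weight.
Proof: strong induction on `k`. If `x i = x j`, `i < j < k`, split into the closed walks `i, ..., j`
and `0, ..., i = j, ..., k`. So let `x 0, ..., x (k - 1)` be distinct. If `k = 1` and the step is
trivial, done; if `k ≥ 2` there is no trivial step. So there are `p t`, `t < k`, `row (p t) = x (t+1)`,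
`c t = h (p t) - h (q (x t))`. Assume `T = ∑ c ≤ 0`. Let `S t = ∑_(u<t) c u` and
`z t = S t - h (q (x t))` (`t < k`). If `s ≠ t` (`s, t < k`) and `f (x s) (vec (p t)) ≠ 0`, then `z t < z s`:
for `s > t` the walk `x s → x (t+1) → ... → x s` (first step by `p t`, the others as before) is closed of
length `s - t < k` with weight `h (p t) - h (q (x s)) + S s - S (t+1) = z s - z t`, positive by
induction; for `s < t` the walk `x s → x (t+1) → ... → x k = x 0 → ... → x s` has length `k - t + s < k`
and weight `z s - z t + T > 0`. Let `q' (x (t+1)) = p t`, `q' = q` elsewhere. The vectors of `q'` are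
linearly independent: if `∑ a r • vec (q' r) = 0`, apply `f (x s)`: `∑_(t<k) a (x (t+1)) * f (x s)`
`(vec (p t)) = 0` (the others have `f (x s) (vec (q r)) = 0`, and `x (t+1)`, `t < k`, runs through
all the `x`), so choosing `s` with `a (x (s+1)) ≠ 0` and `z s` minimal, the sum is
`a (x (s+1)) * f (x s) (vec (p s)) ≠ 0`; so `a (x (t+1)) = 0` for all `t`, and then `a = 0` by applying `f r`.
`q' ≠ q`, and the weight of `q'` minus that of `q` is `∑ (h (p t) - h (q (x (t+1)))) = T ≤ 0`, a
contradiction. -/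
def S_CYC : Prop :=
  ∀ (P R M : Type) [Fintype R] [AddCommGroup M] [Module ℚ M] (row : P → R) (vec : P → M)
    (h : P → ℤ) (q : R → P) (f : R → M →ₗ[ℚ] ℚ),
    (∀ r, row (q r) = r) → (∀ i, f i (vec (q i)) = 1) → (∀ i j, i ≠ j → f i (vec (q j)) = 0) →
    (∀ q' : R → P, (∀ r, row (q' r) = r) → LinearIndependent ℚ (fun r => vec (q' r)) → q' ≠ q →
      ∑ r, h (q r) < ∑ r, h (q' r)) →
    ∀ (k : ℕ) (x : ℕ → R) (c : ℕ → ℤ), 0 < k → x k = x 0 →
      (∀ t < k, (∃ p, row p = x (t + 1) ∧ f (x t) (vec p) ≠ 0 ∧ p ≠ q (x (t + 1)) ∧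
        c t = h p - h (q (x t))) ∨ (x (t + 1) = x t ∧ 0 < c t)) →
      0 < ∑ t ∈ Finset.range k, c t

/-- Piece WALK2 (from CYC). Every finite nonempty set `D` of pairs `(r, n)` (the `n`-th lift of the
relator `r`) has a member `d` such that every corner `p'` of a member `d'` of `D` with
`f d.1 (vec p') ≠ 0` is different from the selected corner of `d` as to its lower height (unless it is
the selected corner) and as to its upper height.
Proof: otherwise every `d = (r, n) ∈ D` has `d' = (r', n') ∈ D` and `p'` with `row p' = r'`,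
`f r (vec p') ≠ 0`, and either (i) `h p' + n' = h (q r) + n`, not (`d' = d` and `p' = q r`), or (ii)
`h p' + n' + 1 = h (q r) + n`. If `p' = q r'` then `r' = r` (as `f r (vec (q r')) ≠ 0`), (i) is impossible
and (ii) says `n - n' = 1`: a trivial step of weight `1`. Otherwise it is a step of weight
`h p' - h (q r) = n - n'` or `n - n' - 1`. Iterate; as `D` is finite there is a closed walk, with total
weight `≤ ∑ (n_t - n_(t+1)) = 0`, contradicting CYC. -/
def S_WALK2 : Prop :=
  S_CYC → ∀ (P R M : Type) [Fintype R] [AddCommGroup M] [Module ℚ M] (row : P → R) (vec : P → M)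
    (h : P → ℤ) (q : R → P) (f : R → M →ₗ[ℚ] ℚ),
    (∀ r, row (q r) = r) → (∀ i, f i (vec (q i)) = 1) → (∀ i j, i ≠ j → f i (vec (q j)) = 0) →
    (∀ q' : R → P, (∀ r, row (q' r) = r) → LinearIndependent ℚ (fun r => vec (q' r)) → q' ≠ q →
      ∑ r, h (q r) < ∑ r, h (q' r)) →
    ∀ D : Finset (R × ℤ), D.Nonempty → ∃ d ∈ D, ∀ d' ∈ D, ∀ p', row p' = d'.1 →
      f d.1 (vec p') ≠ 0 →
      (h p' + d'.2 = h (q d.1) + d.2 → d' = d ∧ p' = q d.1) ∧
        h p' + d'.2 + 1 ≠ h (q d.1) + d.2

/-- Piece TREE. For a finite tree the vectors `e_(v r (m r + 1)) - e_(v r 0)` are linearly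
independent over `ℚ`. Proof: choose `v₀` (`V` is nonempty by the count). The family of these vectors
together with `e_(v₀)` (indexed by `Option R`) spans `V → ℚ` by connectedness and has `|R| + 1 = |V|`
members, so it is linearly independent (`linearIndependent_of_top_le_span_of_card_eq_finrank`). -/
def S_TREE : Prop :=
  ∀ (V R : Type) [Finite V] [Finite R] [DecidableEq V] (m : R → ℕ) (v : ∀ r, Fin (m r + 2) → V),
    IsTree v → LinearIndependent ℚ fun r : R =>
      (Pi.single (v r (Fin.last _)) 1 - Pi.single (v r 0) 1 : V → ℚ)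

/-- Piece SEL2. If the vectors `e_(v r (m r + 1)) - e_(v r 0)` are linearly independent there is a
selection. Proof: `e_(v r (m r + 1)) - e_(v r 0) = ∑_s vec ⟨r, s⟩` (telescoping sum). General lemma: if
`g : R → M` is linearly independent (`R` finite) and `g r = ∑ s, y r s` for all `r`, one can choose
`s r` such that `r ↦ y r (s r)` is linearly independent: replace one row at a time (induction over the
finset of replaced rows): if all the `y r s` were in the span of the other rows, so would be `g r`. -/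
def S_SEL2 : Prop :=
  ∀ (V R : Type) [Finite V] [Finite R] [DecidableEq V] (m : R → ℕ) (v : ∀ r, Fin (m r + 2) → V),
    (LinearIndependent ℚ fun r : R =>
      (Pi.single (v r (Fin.last _)) 1 - Pi.single (v r 0) 1 : V → ℚ)) → ∃ q, IsSel v q

/-- Piece CONTR2. `cap v h v₀` is contractible for a finite tree. Proof: in its fundamental group
`v₀ = 1` and `v r 0` is conjugate to `v r (m r + 1)`, so all the generators are trivial by
connectedness. The cellular boundary operator `ℤ ^ (R + 1) → ℤ ^ V` is onto (its image contains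
`e_(v₀)` and all the `e_(v r 0) - e_(v r (m r + 1))`, use connectedness) between free modules of the same
finite rank, so injective (e.g. `OrzechProperty`, after an equivalence `Option R ≃ V`). -/
def S_CONTR2 : Prop :=
  ∀ (V R : Type) [Finite V] [Finite R] (m : R → ℕ) (v : ∀ r, Fin (m r + 2) → V), IsTree v →
    ∀ (h : Cor m → ℤ) (v₀ : V), (cap v h v₀).Contractible

/-- the main result -/
def S_MAIN : Prop :=
  ∀ (V R : Type) [Finite V] [Fintype R] (m : R → ℕ) (v : ∀ r, Fin (m r + 2) → V), IsTree v →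
    (∀ (h : Cor m → ℤ) (v₀ : V), (cap v h v₀).Contractible) ∧
    (∀ h : Cor m → ℤ, ¬ Tie v h → ∀ (K : Cx) (_ : Sub K (ribbon v h)), LocInd K.Pi) ∧
    ∀ N : ℕ, {h : Cor m → Fin N | Tie v fun p => ((h p : ℕ) : ℤ)}.ncard * N ≤
      (∑ r, (m r + 1)) * N ^ (∑ r, (m r + 1))

end Pool.Agent.H18RD
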