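import Pool.Agent.H18RD.Stm

/-!
# The edge vectors of a finite tree are linearly independent
-/

set_option autoImplicit false

namespace Pool.Agent.H18RD.TREE

open Function Pool.Agent.R655.LI

theorem t_TREE : S_TREE := by
  intro V R _ _ _ m v hv
  obtain ⟨hconn, hcard⟩ := hv
  have : Fintype V := Fintype.ofFinite V
  have : Fintype R := Fintype.ofFinite R
  have hpos : 0 < Nat.card V := by omega
  obtain ⟨⟨v₀⟩, -⟩ := Nat.card_pos_iff.1 hpos
  let u : Option R → (V → ℚ) := fun o => o.elim (Pi.single v₀ 1)
    (fun r => Pi.single (v r (Fin.last _)) 1 - Pi.single (v r 0) 1)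
  have hdiff : ∀ x y : V, (Pi.single x 1 - Pi.single y 1 : V → ℚ) ∈
      Submodule.span ℚ (Set.range u) := by
    intro x y
    induction hconn x y with
    | rel x y h =>
      obtain ⟨r, rfl, rfl⟩ := h
      have h1 : u (some r) ∈ Submodule.span ℚ (Set.range u) := Submodule.subset_span ⟨_, rfl⟩
      have h2 := Submodule.neg_mem _ h1
      rwa [show - u (some r) = (Pi.single (v r 0) 1 - Pi.single (v r (Fin.last _)) 1 : V → ℚ) from
        neg_sub _ _] at h2
    | refl x => rw [sub_self]; exact Submodule.zero_mem _
    | symm x y _ ih =>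
      have h2 := Submodule.neg_mem _ ih
      rwa [neg_sub] at h2
    | trans x y z _ _ ih1 ih2 =>
      have h2 := Submodule.add_mem _ ih1 ih2
      rwa [sub_add_sub_cancel] at h2
  have hsingle : ∀ x : V, (Pi.single x 1 : V → ℚ) ∈ Submodule.span ℚ (Set.range u) := by
    intro x
    have h1 : u none ∈ Submodule.span ℚ (Set.range u) := Submodule.subset_span ⟨_, rfl⟩
    have h2 := Submodule.add_mem _ (hdiff x v₀) h1
    rwa [show u none = (Pi.single v₀ 1 : V → ℚ) from rfl, sub_add_cancel] at h2
  have hspan : ⊤ ≤ Submodule.span ℚ (Set.range u) := by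
    intro g _
    have hg : g = ∑ x, g x • (Pi.single x 1 : V → ℚ) := by
      ext y
      simp [Finset.sum_apply, Pi.single_apply]
    rw [hg]
    exact Submodule.sum_mem _ fun x _ => Submodule.smul_mem _ _ (hsingle x)
  have hli : LinearIndependent ℚ u := by
    refine linearIndependent_of_top_le_span_of_card_eq_finrank hspan ?_
    rw [Module.finrank_fintype_fun_eq_card, Fintype.card_option, ← Nat.card_eq_fintype_card,
      ← Nat.card_eq_fintype_card, hcard]
  exact hli.comp some (Option.some_injective R)

end Pool.Agent.H18RD.TREE
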