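import Pool.Agent.H18RD.Stm

/-!
# Piece WALK2 of project H18RD
-/

set_option autoImplicit false
set_option linter.unusedSectionVars false

namespace Pool.Agent.H18RD.WALK2

open Function Pool.Agent.R655.LI
open scoped Classical

/-- **Piece WALK2** -/
theorem t_WALK2 : S_WALK2 := by
  intro hCYC P R M _ _ _ row vec h q f hq hf1 hf0 hmin D hD
  by_contra hcon
  push Not at hcon
  have step : ∀ d : D, ∃ (d' : D) (c : ℤ), c ≤ d.1.2 - d'.1.2 ∧
      ((∃ p, row p = d'.1.1 ∧ f d.1.1 (vec p) ≠ 0 ∧ p ≠ q d'.1.1 ∧ c = h p - h (q d.1.1)) ∨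
        (d'.1.1 = d.1.1 ∧ 0 < c)) := by
    intro d
    obtain ⟨d', hd', p', h1, h2, h3⟩ := hcon d.1 d.2
    have h4 : p' = q d'.1 → d'.1 = d.1.1 := by
      intro hp
      by_contra hne
      apply h2
      rw [hp]
      exact hf0 _ _ (Ne.symm hne)
    by_cases hC : h p' + d'.2 + 1 = h (q d.1.1) + d.1.2
    · by_cases hp : p' = q d'.1
      · refine ⟨⟨d', hd'⟩, d.1.2 - d'.2, le_rfl, Or.inr ⟨h4 hp, ?_⟩⟩
        rw [hp, h4 hp] at hC
        linarith
      · refine ⟨⟨d', hd'⟩, h p' - h (q d.1.1), ?_, Or.inl ⟨p', h1, h2, hp, rfl⟩⟩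
        change _ ≤ d.1.2 - d'.2
        linarith
    · have h5 : ¬ (h p' + d'.2 = h (q d.1.1) + d.1.2 → d' = d.1 ∧ p' = q d.1.1) :=
        fun h6 => hC (h3 h6)
      push Not at h5
      obtain ⟨hA, hB⟩ := h5
      by_cases hp : p' = q d'.1
      · exfalso
        have h6 := h4 hp
        have h7 : d'.2 = d.1.2 := by
          rw [hp, h6] at hA
          linarith
        exact hB (Prod.ext h6 h7) (by rw [hp, h6])
      · refine ⟨⟨d', hd'⟩, h p' - h (q d.1.1), ?_, Or.inl ⟨p', h1, h2, hp, rfl⟩⟩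
        change _ ≤ d.1.2 - d'.2
        linarith
  choose F c s1 s2 using step
  obtain ⟨d0, hd0⟩ := hD
  let ds : ℕ → D := fun t => F^[t] ⟨d0, hd0⟩
  have hds : ∀ t, ds (t + 1) = F (ds t) := fun t => Function.iterate_succ_apply' F t _
  obtain ⟨i, j, hij, he⟩ : ∃ i j, i < j ∧ ds i = ds j := by
    have h1 : ¬ Injective ds := not_injective_infinite_finite ds
    rw [Function.Injective] at h1
    push Not at h1
    obtain ⟨i, j, he, hne⟩ := h1
    rcases lt_or_gt_of_ne hne with h2 | h2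
    · exact ⟨i, j, h2, he⟩
    · exact ⟨j, i, h2, he.symm⟩
  have hj : i + (j - i) = j := by omega
  have h1 := hCYC P R M row vec h q f hq hf1 hf0 hmin (j - i) (fun t => (ds (i + t)).1.1)
    (fun t => c (ds (i + t))) (by omega) (by
      rw [hj, ← he, add_zero]) (by
      intro t _
      have h2 := s2 (ds (i + t))
      rw [← hds] at h2
      exact h2)
  have h2 : ∑ t ∈ Finset.range (j - i), c (ds (i + t)) ≤
      ∑ t ∈ Finset.range (j - i), ((ds (i + t)).1.2 - (ds (i + (t + 1))).1.2) := by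
    refine Finset.sum_le_sum fun t _ => ?_
    have h3 := s1 (ds (i + t))
    rw [← hds] at h3
    exact h3
  have h3 : ∑ t ∈ Finset.range (j - i), ((ds (i + t)).1.2 - (ds (i + (t + 1))).1.2) = 0 := by
    rw [Finset.sum_range_sub' (fun t => (ds (i + t)).1.2) (j - i)]
    rw [hj, ← he, add_zero, sub_self]
  rw [h3] at h2
  exact absurd h1 (not_lt.mpr h2)

end Pool.Agent.H18RD.WALK2
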